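import Pool.Agent.SprJ.Stmts

/-!
# Gate systems are orthogonality systems (MP_3a0658_ag)   (helper8)
-/

set_option autoImplicit false
set_option linter.unusedSectionVars false

namespace Pool.Agent.SprJ

namespace OSenc

/-- nodes: variables and slots of gates -/
abbrev Nd (N M : ℕ) : Type := Fin N ⊕ (Fin M × Fin 3)

/-- coordinates -/
abbrev Cx (N M : ℕ) : Type := Option (Nd N M)

/-- slot -/
def sl {N M : ℕ} (g : Fin M) (s : Fin 3) : Nd N M := Sum.inr (g, s)

/-- variable node -/
def vr {N M : ℕ} (i : Fin N) : Nd N M := Sum.inl i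

/-- index set of the vectors -/
inductive Ix (N M : ℕ) : Type
  | uc (c : Nd N M) | uu (g : Fin M) (s : Fin 5) | z | p (g : Fin M) | q (g : Fin M)
  | x (g : Fin M) | l (c : Nd N M) | l' (c : Nd N M) | e (g : Fin M) (s : Fin 5) | ad (g : Fin M)
  | mm (g : Fin M) | nn (g : Fin M)
  deriving DecidableEq

/-- index set as a sum -/
def Ix.equivSum (N M : ℕ) : Ix N M ≃ (Nd N M ⊕ Nd N M ⊕ Nd N M) ⊕ (Fin M × Fin 5 ⊕ Fin M × Fin 5) ⊕
    (Unit ⊕ Fin M ⊕ Fin M ⊕ Fin M ⊕ Fin M ⊕ Fin M ⊕ Fin M) where
  toFun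
    | .uc c => .inl (.inl c)
    | .l c => .inl (.inr (.inl c))
    | .l' c => .inl (.inr (.inr c))
    | .uu g s => .inr (.inl (.inl (g, s)))
    | .e g s => .inr (.inl (.inr (g, s)))
    | .z => .inr (.inr (.inl ()))
    | .p g => .inr (.inr (.inr (.inl g)))
    | .q g => .inr (.inr (.inr (.inr (.inl g))))
    | .x g => .inr (.inr (.inr (.inr (.inr (.inl g)))))
    | .ad g => .inr (.inr (.inr (.inr (.inr (.inr (.inl g))))))
    | .mm g => .inr (.inr (.inr (.inr (.inr (.inr (.inr (.inl g)))))))
    | .nn g => .inr (.inr (.inr (.inr (.inr (.inr (.inr (.inr g)))))))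
  invFun
    | .inl (.inl c) => .uc c
    | .inl (.inr (.inl c)) => .l c
    | .inl (.inr (.inr c)) => .l' c
    | .inr (.inl (.inl (g, s))) => .uu g s
    | .inr (.inl (.inr (g, s))) => .e g s
    | .inr (.inr (.inl ())) => .z
    | .inr (.inr (.inr (.inl g))) => .p g
    | .inr (.inr (.inr (.inr (.inl g)))) => .q g
    | .inr (.inr (.inr (.inr (.inr (.inl g))))) => .x g
    | .inr (.inr (.inr (.inr (.inr (.inr (.inl g)))))) => .ad g
    | .inr (.inr (.inr (.inr (.inr (.inr (.inr (.inl g))))))) => .mm g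
    | .inr (.inr (.inr (.inr (.inr (.inr (.inr (.inr g))))))) => .nn g
  left_inv q := by cases q <;> rfl
  right_inv q := by
    rcases q with (c | c | c) | (⟨g, s⟩ | ⟨g, s⟩) | (_ | g | g | g | g | g | g) <;> rfl

instance (N M : ℕ) : Fintype (Ix N M) := Fintype.ofEquiv _ (Ix.equivSum N M).symm

lemma Ix.card (N M : ℕ) : Fintype.card (Ix N M) = 3 * N + 25 * M + 1 := by
  rw [Fintype.card_congr (Ix.equivSum N M)]
  simp only [Fintype.card_sum, Fintype.card_prod, Fintype.card_fin, Fintype.card_unit]
  ring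

variable {N M : ℕ} (gate : Fin M → Bool × Fin N × Fin N × Fin N) (one : Fin N)

/-- first end -/
def e1 (g : Fin M) (s : Fin 5) : Nd N M := match s with
  | 0 => sl g 0 | 1 => sl g 1 | 2 => sl g 2 | 3 => sl g 0 | 4 => sl g 1

/-- second end -/
def e2 (g : Fin M) (s : Fin 5) : Nd N M := match s with
  | 0 => vr (gate g).2.1 | 1 => vr (gate g).2.2.1 | 2 => vr (gate g).2.2.2 | 3 => sl g 2 | 4 => sl g 2

lemma e12 (g : Fin M) (s : Fin 5) : (e1 g s : Nd N M) ≠ e2 gate g s := by
  fin_cases s <;> simp [e1, e2, sl, vr]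

/-- supports of the first vectors -/
def sY : Ix N M → Cx N M → Prop
  | .uc c, y => y = none ∨ y = some c
  | .uu g s, y => y = none ∨ y = some (e1 g s) ∨ y = some (e2 gate g s)
  | .z, _ => True
  | .p g, y => y = some (sl g 0) ∨ y = some (sl g 2)
  | .q g, y => y = some (sl g 1) ∨ y = some (sl g 2)
  | .x g, y => y = none ∨ y = some (sl g 0) ∨ y = some (sl g 1) ∨ y = some (sl g 2)
  | .l c, y => y = some c
  | .l' _, y => y = none
  | .e g s, y => y = some (e1 g s) ∨ y = some (e2 gate g s)
  | .ad g, y => y = some (sl g 0) ∨ y = some (sl g 1) ∨ y = some (sl g 2)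
  | .mm g, y => y = none ∨ y = some (sl g 1)
  | .nn g, y => y = some (sl g 0) ∨ y = some (sl g 2)

/-- supports of the second vectors -/
def sZ : Ix N M → Cx N M → Prop
  | .uc c, y => y = none ∨ y = some c
  | .uu g s, y => y = none ∨ y = some (e1 g s) ∨ y = some (e2 gate g s)
  | .z, y => y = none
  | .p g, y => y = some (sl g 0) ∨ y = some (sl g 2)
  | .q g, y => y = some (sl g 1) ∨ y = some (sl g 2)
  | .x g, y => y = none ∨ y = some (sl g 0) ∨ y = some (sl g 1) ∨ y = some (sl g 2)
  | .l c, y => y = none ∨ y = some c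
  | .l' c, y => y = none ∨ y = some c
  | .e g s, y => y = some (e1 g s) ∨ y = some (e2 gate g s)
  | .ad g, y => y = some (sl g 0) ∨ y = some (sl g 1) ∨ y = some (sl g 2)
  | .mm g, y => y = none ∨ y = some (sl g 1)
  | .nn g, y => y = some (sl g 0) ∨ y = some (sl g 2)

/-- incidences -/
def Sg : Ix N M → Ix N M → Prop
  | .uc c, .l c' => c = c'
  | .uc c, .l' c' => c = c'
  | .uu g s, .l c => c = e1 g s ∨ c = e2 gate g s
  | .uu g s, .e g' s' => g = g' ∧ s = s'
  | .p g, .e g' s => g = g' ∧ s = 3
  | .p g, .ad g' => g = g'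
  | .q g, .e g' s => g = g' ∧ s = 4
  | .q g, .ad g' => g = g'
  | .x g, .l c => c = sl g 0
  | .x g, .e g' s => g = g' ∧ s = 4
  | .x g, .mm g' => g = g'
  | .x g, .nn g' => g = g'
  | .z, .ad g => (gate g).1 = false
  | .z, .mm _ => True
  | .z, .nn g => (gate g).1 = true
  | .z, .l c => c = vr one
  | .z, .e _ s => (s : ℕ) < 3
  | _, _ => False

section Dots

variable {K : Type*} [Field K] {C : Type*} [Fintype C] [DecidableEq C]

lemma sum1 {a : C} {f : C → K} (h : ∀ y, y ≠ a → f y = 0) : ∑ y, f y = f a := by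
  rw [Finset.sum_eq_single a]
  · intro y _ hy; exact h y hy
  · simp

lemma sum2 {a b : C} {f : C → K} (hab : a ≠ b) (h : ∀ y, y ≠ a → y ≠ b → f y = 0) :
    ∑ y, f y = f a + f b := by
  rw [← Finset.sum_subset (Finset.subset_univ {a, b})]
  · rw [Finset.sum_pair hab]
  · intro y _ hy
    simp only [Finset.mem_insert, Finset.mem_singleton, not_or] at hy
    exact h y hy.1 hy.2

lemma sum3 {a b c : C} {f : C → K} (hab : a ≠ b) (hac : a ≠ c) (hbc : b ≠ c)
    (h : ∀ y, y ≠ a → y ≠ b → y ≠ c → f y = 0) : ∑ y, f y = f a + f b + f c := by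
  rw [← Finset.sum_subset (Finset.subset_univ {a, b, c})]
  · rw [Finset.sum_insert (by simp [hab, hac]), Finset.sum_pair hbc]; ring
  · intro y _ hy
    simp only [Finset.mem_insert, Finset.mem_singleton, not_or] at hy
    exact h y hy.1 hy.2.1 hy.2.2

lemma det0 {x0 x1 z0 z1 m0 m1 : K} (hm : ¬ (m0 = 0 ∧ m1 = 0)) (h1 : x0 * m0 + x1 * m1 = 0)
    (h2 : z0 * m0 + z1 * m1 = 0) : x0 * z1 = x1 * z0 := by
  by_cases h : m0 = 0
  · have hm1 : m1 ≠ 0 := fun h' => hm ⟨h, h'⟩
    rw [h, mul_zero, zero_add] at h1 h2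
    rw [(mul_eq_zero.1 h1).resolve_right hm1, (mul_eq_zero.1 h2).resolve_right hm1]
    ring
  · have : m0 * (x0 * z1 - x1 * z0) = 0 := by linear_combination z1 * h1 - x1 * h2
    exact sub_eq_zero.1 ((mul_eq_zero.1 this).resolve_left h)

end Dots

variable {K : Type} [Field K]

/-- from the orthogonality system to the gates, with the values of the variables -/
theorem forwardE {Y Z : Ix N M → Cx N M → K} (hY : ∀ i x, ¬ sY gate i x → Y i x = 0)
    (hZ : ∀ i x, ¬ sZ gate i x → Z i x = 0)
    (hS : ∀ i j, i ≠ j → Sg gate one i j → ∑ x, Y i x * Z j x = 0)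
    (hD : ∀ i, ∑ x, Y i x * Z i x ≠ 0) :
    ∃ x : Fin N → K, (x one = 1 ∧ ∀ g : Fin M,
      if (gate g).1 then x (gate g).2.1 * x (gate g).2.2.1 = x (gate g).2.2.2
      else x (gate g).2.1 + x (gate g).2.2.1 = x (gate g).2.2.2) ∧ Y .z none ≠ 0 ∧
      ∀ i, ∃ τ : K, τ ≠ 0 ∧ Y (.uc (vr i)) (some (vr i)) = τ * Y (.uc (vr i)) none ∧
        Y .z (some (vr i)) = x i * (τ * Y .z none) := by
  have hYZ : ∀ i j y, ¬ sZ gate j y → Y i y * Z j y = 0 := fun i j y h => by rw [hZ j y h, mul_zero]
  have hYZ' : ∀ i j y, ¬ sY gate i y → Y i y * Z j y = 0 := fun i j y h => by rw [hY i y h, zero_mul]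
  -- lines `l`
  have dl : ∀ i c, ∑ y, Y i y * Z (.l c) y = Y i none * Z (.l c) none + Y i (some c) * Z (.l c) (some c) :=
    fun i c => sum2 (by simp) fun y h1 h2 => hYZ i _ y (by simp [sZ, h1, h2])
  have dl' : ∀ i c, ∑ y, Y i y * Z (.l' c) y
      = Y i none * Z (.l' c) none + Y i (some c) * Z (.l' c) (some c) :=
    fun i c => sum2 (by simp) fun y h1 h2 => hYZ i _ y (by simp [sZ, h1, h2])
  have de : ∀ i g s, ∑ y, Y i y * Z (.e g s) y
      = Y i (some (e1 g s)) * Z (.e g s) (some (e1 g s))
        + Y i (some (e2 gate g s)) * Z (.e g s) (some (e2 gate g s)) :=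
    fun i g s => sum2 (by simp [e12]) fun y h1 h2 => hYZ i _ y (by simp [sZ, h1, h2])
  have dm : ∀ i g, ∑ y, Y i y * Z (.mm g) y
      = Y i none * Z (.mm g) none + Y i (some (sl g 1)) * Z (.mm g) (some (sl g 1)) :=
    fun i g => sum2 (by simp) fun y h1 h2 => hYZ i _ y (by simp [sZ, h1, h2])
  have dn : ∀ i g, ∑ y, Y i y * Z (.nn g) y
      = Y i (some (sl g 0)) * Z (.nn g) (some (sl g 0)) + Y i (some (sl g 2)) * Z (.nn g) (some (sl g 2)) :=
    fun i g => sum2 (by simp [sl]) fun y h1 h2 => hYZ i _ y (by simp [sZ, h1, h2])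
  have da : ∀ i g, ∑ y, Y i y * Z (.ad g) y
      = Y i (some (sl g 0)) * Z (.ad g) (some (sl g 0)) + Y i (some (sl g 1)) * Z (.ad g) (some (sl g 1))
        + Y i (some (sl g 2)) * Z (.ad g) (some (sl g 2)) :=
    fun i g => sum3 (by simp [sl]) (by simp [sl]) (by simp [sl])
      fun y h1 h2 h3 => hYZ i _ y (by simp [sZ, h1, h2, h3])
  -- reference ratios
  have ref : ∀ c : Nd N M, ∃ τ : K, τ ≠ 0 ∧ ∀ i, i ≠ .l c → Sg gate one i (.l c) →
      Y i (some c) = τ * Y i none := by
    intro c
    have h1 := hS (.uc c) (.l c) (by simp) rfl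
    have h2 := hS (.uc c) (.l' c) (by simp) rfl
    rw [dl] at h1
    rw [dl'] at h2
    have h3 := hD (.uc c)
    have ht : Z (.l c) (some c) ≠ 0 := by
      intro h0
      apply hD (.l c)
      rw [dl, h0, hY (.l c) none (by simp [sY])]
      ring
    have hs : Z (.l' c) none ≠ 0 := by
      intro h0
      apply hD (.l' c)
      rw [dl', h0, hY (.l' c) (some c) (by simp [sY])]
      ring
    have hu : Y (.uc c) none ≠ 0 := by
      intro h0
      rw [h0, zero_mul, zero_add] at h1
      have h4 := (mul_eq_zero.1 h1).resolve_right ht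
      apply h3
      apply Finset.sum_eq_zero
      intro y _
      by_cases hy : y = none
      · rw [hy, h0, zero_mul]
      · by_cases hy' : y = some c
        · rw [hy', h4, zero_mul]
        · exact hYZ' _ _ _ (by simp [sY, hy, hy'])
    have hu' : Y (.uc c) (some c) ≠ 0 := by
      intro h0
      rw [h0, zero_mul, add_zero] at h2
      exact hu ((mul_eq_zero.1 h2).resolve_right hs)
    refine ⟨Y (.uc c) (some c) / Y (.uc c) none, div_ne_zero hu' hu, fun i hi hSi => ?_⟩
    have h5 := hS i (.l c) hi hSi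
    rw [dl] at h5
    have h6 : Z (.l c) (some c) * (Y i (some c) * Y (.uc c) none - Y (.uc c) (some c) * Y i none) = 0 := by
      linear_combination Y (.uc c) none * h5 - Y i none * h1
    have h7 := sub_eq_zero.1 ((mul_eq_zero.1 h6).resolve_left ht)
    field_simp
    linear_combination h7
  choose τ hτ hτl using ref
  -- equality lines
  have eqr : ∀ g s i, i ≠ .e g s → Sg gate one i (.e g s) →
      Y i (some (e2 gate g s)) * τ (e1 g s) = Y i (some (e1 g s)) * τ (e2 gate g s) := by
    intro g s i hi hSi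
    have h1 := hS (.uu g s) (.e g s) (by simp) ⟨rfl, rfl⟩
    rw [de, hτl (e1 g s) (.uu g s) (by simp) (Or.inl rfl),
      hτl (e2 gate g s) (.uu g s) (by simp) (Or.inr rfl)] at h1
    have hv : Y (.uu g s) none ≠ 0 := by
      intro h0
      apply hD (.uu g s)
      apply Finset.sum_eq_zero
      intro y _
      by_cases hy : y = none
      · rw [hy, h0, zero_mul]
      · by_cases hy' : y = some (e1 g s)
        · rw [hy', hτl (e1 g s) (.uu g s) (by simp) (Or.inl rfl), h0]; ring
        · by_cases hy'' : y = some (e2 gate g s)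
          · rw [hy'', hτl (e2 gate g s) (.uu g s) (by simp) (Or.inr rfl), h0]; ring
          · exact hYZ' _ _ _ (by simp [sY, hy, hy', hy''])
    have h2 : τ (e1 g s) * Z (.e g s) (some (e1 g s))
        + τ (e2 gate g s) * Z (.e g s) (some (e2 gate g s)) = 0 := by
      have : Y (.uu g s) none * (τ (e1 g s) * Z (.e g s) (some (e1 g s))
        + τ (e2 gate g s) * Z (.e g s) (some (e2 gate g s))) = 0 := by linear_combination h1
      exact (mul_eq_zero.1 this).resolve_left hv
    have h3 := hS i (.e g s) hi hSi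
    rw [de] at h3
    have h4 : ¬ (Z (.e g s) (some (e1 g s)) = 0 ∧ Z (.e g s) (some (e2 gate g s)) = 0) := by
      rintro ⟨ha, hb⟩
      apply hD (.e g s)
      rw [de, ha, hb]; ring
    have h5 := det0 h4 h2 h3
    linear_combination h5
  -- the solution
  have hz : Y .z none ≠ 0 := by
    intro h0
    apply hD .z
    rw [sum1 (a := none) (fun y hy => hYZ _ _ _ (by simp [sZ, hy])), h0, zero_mul]
  let ξ : Nd N M → K := fun c => Y .z (some c) / (τ c * Y .z none)
  have hξ : ∀ c, Y .z (some c) = ξ c * (τ c * Y .z none) := by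
    intro c
    have := mul_ne_zero (hτ c) hz
    simp only [ξ]
    rw [div_mul_cancel₀ _ this]
  have heq : ∀ g s, (s : Fin 5) < 3 → ξ (e1 g s) = ξ (e2 gate g s) := by
    intro g s hs
    have h1 := eqr g s .z (by simp) (by
      show (s : ℕ) < 3
      exact hs)
    rw [hξ, hξ] at h1
    have h2 : (τ (e1 g s) * τ (e2 gate g s) * Y .z none) * (ξ (e2 gate g s) - ξ (e1 g s)) = 0 := by
      linear_combination h1
    exact (sub_eq_zero.1 ((mul_eq_zero.1 h2).resolve_left
      (mul_ne_zero (mul_ne_zero (hτ _) (hτ _)) hz))).symm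
  refine ⟨fun i => ξ (vr i), ⟨?_, fun g => ?_⟩, hz,
    fun i => ⟨τ (vr i), hτ _, hτl (vr i) (.uc (vr i)) (by simp) rfl, hξ _⟩⟩
  · have h1 := hτl (vr one) .z (by simp) rfl
    simp only [ξ]
    rw [h1]
    exact div_self (mul_ne_zero (hτ _) hz)
  · have h0 : ξ (sl g 0) = ξ (vr (gate g).2.1) := heq g 0 (by decide)
    have h1 : ξ (sl g 1) = ξ (vr (gate g).2.2.1) := heq g 1 (by decide)
    have h2 : ξ (sl g 2) = ξ (vr (gate g).2.2.2) := heq g 2 (by decide)
    split_ifs with hg
    · -- multiplication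
      have a1 := hS (.x g) (.mm g) (by simp) rfl
      have a2 := hS .z (.mm g) (by simp) trivial
      have a3 := hS (.x g) (.nn g) (by simp) rfl
      have a4 := hS .z (.nn g) (by simp) hg
      rw [dm] at a1 a2
      rw [dn] at a3 a4
      have m0 : ¬ (Z (.mm g) none = 0 ∧ Z (.mm g) (some (sl g 1)) = 0) := by
        rintro ⟨ha, hb⟩
        apply hD (.mm g)
        rw [dm, ha, hb]; ring
      have n0 : ¬ (Z (.nn g) (some (sl g 0)) = 0 ∧ Z (.nn g) (some (sl g 2)) = 0) := by
        rintro ⟨ha, hb⟩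
        apply hD (.nn g)
        rw [dn, ha, hb]; ring
      have b1 := det0 m0 a1 a2
      have b2 := det0 n0 a3 a4
      have b3 := hτl (sl g 0) (.x g) (by simp) rfl
      have b4 : Y (.x g) (some (sl g 2)) * τ (sl g 1) = Y (.x g) (some (sl g 1)) * τ (sl g 2) :=
        eqr g 4 (.x g) (by simp) ⟨rfl, rfl⟩
      have hx : Y (.x g) none ≠ 0 := by
        intro hx0
        rw [hx0, zero_mul] at b1
        have c1 := (mul_eq_zero.1 b1.symm).resolve_right hz
        rw [hx0, mul_zero] at b3
        rw [c1, zero_mul] at b4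
        have c2 := (mul_eq_zero.1 b4).resolve_right (hτ _)
        apply hD (.x g)
        apply Finset.sum_eq_zero
        intro y _
        by_cases e0 : y = none
        · rw [e0, hx0, zero_mul]
        · by_cases e1 : y = some (sl g 0)
          · rw [e1, b3, zero_mul]
          · by_cases e2 : y = some (sl g 1)
            · rw [e2, c1, zero_mul]
            · by_cases e3 : y = some (sl g 2)
              · rw [e3, c2, zero_mul]
              · exact hYZ' _ _ _ (by simp [sY, e0, e1, e2, e3])
      show ξ (vr (gate g).2.1) * ξ (vr (gate g).2.2.1) = ξ (vr (gate g).2.2.2)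
      rw [← h0, ← h1, ← h2]
      rw [hξ, b3] at b2
      rw [hξ] at b1
      rw [hξ] at b2
      have c1 : Y (.x g) (some (sl g 1)) = Y (.x g) none * ξ (sl g 1) * τ (sl g 1) := by
        have : Y .z none * (Y (.x g) (some (sl g 1)) - Y (.x g) none * ξ (sl g 1) * τ (sl g 1)) = 0 := by
          linear_combination -b1
        exact sub_eq_zero.1 ((mul_eq_zero.1 this).resolve_left hz)
      have c2 : (Y (.x g) none * τ (sl g 0) * τ (sl g 1) * τ (sl g 2) * Y .z none) *
          (ξ (sl g 0) * ξ (sl g 1) - ξ (sl g 2)) = 0 := by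
        rw [c1] at b4
        linear_combination (-τ (sl g 1)) * b2 - (ξ (sl g 0) * τ (sl g 0) * Y .z none) * b4
      refine sub_eq_zero.1 ((mul_eq_zero.1 c2).resolve_left ?_)
      exact mul_ne_zero (mul_ne_zero (mul_ne_zero (mul_ne_zero hx (hτ _)) (hτ _)) (hτ _)) hz
    · -- addition
      have hg' : (gate g).1 = false := by simpa using hg
      have a1 := hS (.p g) (.ad g) (by simp) rfl
      have a2 := hS (.q g) (.ad g) (by simp) rfl
      have a3 := hS .z (.ad g) (by simp) hg'
      rw [da] at a1 a2 a3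
      rw [hY (.p g) (some (sl g 1)) (by simp [sY, sl]), zero_mul, add_zero] at a1
      rw [hY (.q g) (some (sl g 0)) (by simp [sY, sl]), zero_mul, zero_add] at a2
      have b1 : Y (.p g) (some (sl g 2)) * τ (sl g 0) = Y (.p g) (some (sl g 0)) * τ (sl g 2) :=
        eqr g 3 (.p g) (by simp) ⟨rfl, rfl⟩
      have b2 : Y (.q g) (some (sl g 2)) * τ (sl g 1) = Y (.q g) (some (sl g 1)) * τ (sl g 2) :=
        eqr g 4 (.q g) (by simp) ⟨rfl, rfl⟩
      have hp : Y (.p g) (some (sl g 0)) ≠ 0 := by
        intro hp0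
        rw [hp0, zero_mul] at b1
        have c1 := (mul_eq_zero.1 b1).resolve_right (hτ _)
        apply hD (.p g)
        apply Finset.sum_eq_zero
        intro y _
        by_cases e1 : y = some (sl g 0)
        · rw [e1, hp0, zero_mul]
        · by_cases e2 : y = some (sl g 2)
          · rw [e2, c1, zero_mul]
          · exact hYZ' _ _ _ (by simp [sY, e1, e2])
      have hq : Y (.q g) (some (sl g 1)) ≠ 0 := by
        intro hq0
        rw [hq0, zero_mul] at b2
        have c1 := (mul_eq_zero.1 b2).resolve_right (hτ _)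
        apply hD (.q g)
        apply Finset.sum_eq_zero
        intro y _
        by_cases e1 : y = some (sl g 1)
        · rw [e1, hq0, zero_mul]
        · by_cases e2 : y = some (sl g 2)
          · rw [e2, c1, zero_mul]
          · exact hYZ' _ _ _ (by simp [sY, e1, e2])
      set A0 := Z (.ad g) (some (sl g 0))
      set A1 := Z (.ad g) (some (sl g 1))
      set A2 := Z (.ad g) (some (sl g 2))
      have c1 : τ (sl g 0) * A0 + τ (sl g 2) * A2 = 0 := by
        have : Y (.p g) (some (sl g 0)) * (τ (sl g 0) * A0 + τ (sl g 2) * A2) = 0 := by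
          linear_combination τ (sl g 0) * a1 - A2 * b1
        exact (mul_eq_zero.1 this).resolve_left hp
      have c2 : τ (sl g 1) * A1 + τ (sl g 2) * A2 = 0 := by
        have : Y (.q g) (some (sl g 1)) * (τ (sl g 1) * A1 + τ (sl g 2) * A2) = 0 := by
          linear_combination τ (sl g 1) * a2 - A2 * b2
        exact (mul_eq_zero.1 this).resolve_left hq
      have hA : A2 ≠ 0 := by
        intro h
        rw [h, mul_zero, add_zero] at c1 c2
        have d1 := (mul_eq_zero.1 c1).resolve_left (hτ _)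
        have d2 := (mul_eq_zero.1 c2).resolve_left (hτ _)
        apply hD (.ad g)
        rw [da]
        show Y (.ad g) (some (sl g 0)) * A0 + Y (.ad g) (some (sl g 1)) * A1
          + Y (.ad g) (some (sl g 2)) * A2 = 0
        rw [h, d1, d2]; ring
      show ξ (vr (gate g).2.1) + ξ (vr (gate g).2.2.1) = ξ (vr (gate g).2.2.2)
      rw [← h0, ← h1, ← h2]
      rw [hξ, hξ, hξ] at a3
      have c3 : (A2 * τ (sl g 2) * Y .z none) * (ξ (sl g 0) + ξ (sl g 1) - ξ (sl g 2)) = 0 := by
        linear_combination (ξ (sl g 0) * Y .z none) * c1 + (ξ (sl g 1) * Y .z none) * c2 - a3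
      refine sub_eq_zero.1 ((mul_eq_zero.1 c3).resolve_left ?_)
      exact mul_ne_zero (mul_ne_zero hA (hτ _)) hz

/-- from the orthogonality system to the gates -/
theorem forward (h : OSol K (sY gate) (sZ gate) (Sg gate one)) : GSol K gate one := by
  obtain ⟨Y, Z, hY, hZ, hS, hD⟩ := h
  obtain ⟨x, hx, -⟩ := forwardE gate one hY hZ hS hD
  exact ⟨x, hx⟩

/-! ### from the gates to the orthogonality system -/

section Back

variable (ζ : Nd N M → K)

/-- indicator vector -/
def ind (P : Cx N M → Prop) [DecidablePred P] : Cx N M → K := fun y => if P y then 1 else 0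

/-- first vectors -/
def YY : Ix N M → Cx N M → K
  | .uc c, y => if y = none ∨ y = some c then 1 else 0
  | .uu g s, y => if y = none ∨ y = some (e1 g s) ∨ y = some (e2 gate g s) then 1 else 0
  | .z, none => 1
  | .z, some c => ζ c
  | .p g, y => if y = some (sl g 0) ∨ y = some (sl g 2) then 1 else 0
  | .q g, y => if y = some (sl g 1) ∨ y = some (sl g 2) then 1 else 0
  | .x g, y => if y = none ∨ y = some (sl g 0) then 1
      else if y = some (sl g 1) ∨ y = some (sl g 2) then ζ (sl g 1) else 0
  | .l c, y => if y = some c then 1 else 0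
  | .l' _, y => if y = none then 1 else 0
  | .e g s, y => if y = some (e1 g s) then 1 else 0
  | .ad g, y => if y = some (sl g 0) then 1 else 0
  | .mm g, y => if y = some (sl g 1) then 1 else 0
  | .nn g, y => if y = some (sl g 2) then 1 else 0

/-- second vectors -/
def ZZ : Ix N M → Cx N M → K
  | .uc _, y => if y = none then 1 else 0
  | .uu _ _, y => if y = none then 1 else 0
  | .z, y => if y = none then 1 else 0
  | .p g, y => if y = some (sl g 0) then 1 else 0
  | .q g, y => if y = some (sl g 1) then 1 else 0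
  | .x _, y => if y = none then 1 else 0
  | .l c, y => (if y = none then 1 else 0) - (if y = some c then 1 else 0)
  | .l' c, y => (if y = none then 1 else 0) - (if y = some c then 1 else 0)
  | .e g s, y => (if y = some (e1 g s) then 1 else 0) - (if y = some (e2 gate g s) then 1 else 0)
  | .ad g, y => (if y = some (sl g 0) then 1 else 0) + (if y = some (sl g 1) then 1 else 0)
      - (if y = some (sl g 2) then 1 else 0)
  | .mm g, y => ζ (sl g 1) * (if y = none then 1 else 0) - (if y = some (sl g 1) then 1 else 0)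
  | .nn g, y => ζ (sl g 1) * (if y = some (sl g 0) then 1 else 0)
      - (if y = some (sl g 2) then 1 else 0)

lemma dot_ind {C : Type*} [Fintype C] [DecidableEq C] (f : C → K) (a : C) :
    ∑ y, f y * (if y = a then 1 else 0) = f a := by simp

theorem backwardE (h1 : ζ (vr one) = 1)
    (he : ∀ g (s : Fin 5), (s : ℕ) < 3 → ζ (e1 g s) = ζ (e2 gate g s))
    (hg : ∀ g, if (gate g).1 then ζ (sl g 0) * ζ (sl g 1) = ζ (sl g 2)
      else ζ (sl g 0) + ζ (sl g 1) = ζ (sl g 2)) :
    (∀ i x, ¬ sY gate i x → YY gate ζ i x = 0) ∧ (∀ i x, ¬ sZ gate i x → ZZ gate ζ i x = 0) ∧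
    (∀ i j, i ≠ j → Sg gate one i j → ∑ x, YY gate ζ i x * ZZ gate ζ j x = 0) ∧
    (∀ i, ∑ x, YY gate ζ i x * ZZ gate ζ i x ≠ 0) := by
  refine ⟨?_, ?_, ?_, ?_⟩
  · intro i y h
    cases i <;> simp only [sY, not_or, not_true_eq_false] at h
    case uc c => simp [YY, h.1, h.2]
    case uu g s => simp [YY, h.1, h.2.1, h.2.2]
    case p g => simp [YY, h.1, h.2]
    case q g => simp [YY, h.1, h.2]
    case x g => simp [YY, h.1, h.2.1, h.2.2.1, h.2.2.2]
    case l c => simp [YY, h]
    case l' c => simp [YY, h]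
    case e g s => simp [YY, h.1]
    case ad g => simp [YY, h.1]
    case mm g => simp [YY, h.2]
    case nn g => simp [YY, h.2]
  · intro i y h
    cases i <;> simp only [sZ, not_or] at h
    case uc c => simp [ZZ, h.1]
    case uu g s => simp [ZZ, h.1]
    case z => simp [ZZ, h]
    case p g => simp [ZZ, h.1]
    case q g => simp [ZZ, h.1]
    case x g => simp [ZZ, h.1]
    case l c => simp [ZZ, h.1, h.2]
    case l' c => simp [ZZ, h.1, h.2]
    case e g s => simp [ZZ, h.1, h.2]
    case ad g => simp [ZZ, h.1, h.2.1, h.2.2]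
    case mm g => simp [ZZ, h.1, h.2]
    case nn g => simp [ZZ, h.1, h.2]
  · intro i j hij hS
    have hl : ∀ i c, ∑ y, YY gate ζ i y * ZZ gate ζ (.l c) y
        = YY gate ζ i none - YY gate ζ i (some c) := by
      intro i c
      simp only [ZZ, mul_sub, Finset.sum_sub_distrib, dot_ind]
    have hl' : ∀ i c, ∑ y, YY gate ζ i y * ZZ gate ζ (.l' c) y
        = YY gate ζ i none - YY gate ζ i (some c) := by
      intro i c
      simp only [ZZ, mul_sub, Finset.sum_sub_distrib, dot_ind]
    have hee : ∀ i g s, ∑ y, YY gate ζ i y * ZZ gate ζ (.e g s) y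
        = YY gate ζ i (some (e1 g s)) - YY gate ζ i (some (e2 gate g s)) := by
      intro i g s
      simp only [ZZ, mul_sub, Finset.sum_sub_distrib, dot_ind]
    have had : ∀ i g, ∑ y, YY gate ζ i y * ZZ gate ζ (.ad g) y
        = YY gate ζ i (some (sl g 0)) + YY gate ζ i (some (sl g 1))
          - YY gate ζ i (some (sl g 2)) := by
      intro i g
      simp only [ZZ, mul_sub, mul_add, Finset.sum_sub_distrib, Finset.sum_add_distrib, dot_ind]
    have hmm : ∀ i g, ∑ y, YY gate ζ i y * ZZ gate ζ (.mm g) y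
        = ζ (sl g 1) * YY gate ζ i none - YY gate ζ i (some (sl g 1)) := by
      intro i g
      simp only [ZZ, mul_sub, Finset.sum_sub_distrib, dot_ind]
      congr 1
      rw [← dot_ind (YY gate ζ i) none, Finset.mul_sum]
      exact Finset.sum_congr rfl fun y _ => by ring
    have hnn : ∀ i g, ∑ y, YY gate ζ i y * ZZ gate ζ (.nn g) y
        = ζ (sl g 1) * YY gate ζ i (some (sl g 0)) - YY gate ζ i (some (sl g 2)) := by
      intro i g
      simp only [ZZ, mul_sub, Finset.sum_sub_distrib, dot_ind]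
      congr 1
      rw [← dot_ind (YY gate ζ i) (some (sl g 0)), Finset.mul_sum]
      exact Finset.sum_congr rfl fun y _ => by ring
    cases i <;> cases j <;> first | exact (hS : False).elim | skip
    case uc.l c c' =>
      have : c = c' := hS
      rw [hl, this]; simp [YY]
    case uc.l' c c' =>
      have : c = c' := hS
      rw [hl', this]; simp [YY]
    case uu.l g s c =>
      have : c = e1 g s ∨ c = e2 gate g s := hS
      rw [hl]
      rcases this with rfl | rfl <;> simp [YY]
    case uu.e g s g' s' =>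
      have : g = g' ∧ s = s' := hS
      obtain ⟨rfl, rfl⟩ := this
      rw [hee]; simp [YY]
    case p.e g g' s =>
      have : g = g' ∧ s = 3 := hS
      obtain ⟨rfl, rfl⟩ := this
      rw [hee]; simp [YY, e1, e2]
    case p.ad g g' =>
      have : g = g' := hS
      subst this
      rw [had]; simp [YY, sl]
    case q.e g g' s =>
      have : g = g' ∧ s = 4 := hS
      obtain ⟨rfl, rfl⟩ := this
      rw [hee]; simp [YY, e1, e2]
    case q.ad g g' =>
      have : g = g' := hS
      subst this
      rw [had]; simp [YY, sl]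
    case x.l g c =>
      have : c = sl g 0 := hS
      rw [hl, this]; simp [YY]
    case x.e g g' s =>
      have : g = g' ∧ s = 4 := hS
      obtain ⟨rfl, rfl⟩ := this
      rw [hee]; simp [YY, e1, e2, sl]
    case x.mm g g' =>
      have : g = g' := hS
      subst this
      rw [hmm]; simp [YY, sl]
    case x.nn g g' =>
      have : g = g' := hS
      subst this
      rw [hnn]; simp [YY, sl]
    case z.l c =>
      have : c = vr one := hS
      rw [hl, this]; simp [YY, h1]
    case z.e g s =>
      have h2 : (s : ℕ) < 3 := hS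
      rw [hee]
      show ζ (e1 g s) - ζ (e2 gate g s) = 0
      rw [he g s h2, sub_self]
    case z.ad g =>
      have h2 : (gate g).1 = false := hS
      have h3 := hg g
      rw [h2] at h3
      rw [had]
      show ζ (sl g 0) + ζ (sl g 1) - ζ (sl g 2) = 0
      simp only [Bool.false_eq_true, if_false] at h3
      rw [h3, sub_self]
    case z.mm g =>
      rw [hmm]
      show ζ (sl g 1) * 1 - ζ (sl g 1) = 0
      ring
    case z.nn g =>
      have h2 : (gate g).1 = true := hS
      have h3 := hg g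
      rw [h2] at h3
      rw [hnn]
      show ζ (sl g 1) * ζ (sl g 0) - ζ (sl g 2) = 0
      simp only [if_true] at h3
      rw [← h3]; ring
  · intro i
    have hs : ∀ a : Cx N M, ∀ f : Cx N M → K, ∑ y, (if y = a then (1 : K) else 0) * f y = f a := by
      intro a f
      rw [← dot_ind f a]
      exact Finset.sum_congr rfl fun y _ => mul_comm _ _
    cases i
    case uc c => simp only [ZZ, dot_ind]; simp [YY]
    case uu g s => simp only [ZZ, dot_ind]; simp [YY]
    case z => simp only [ZZ, dot_ind]; simp [YY]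
    case p g => simp only [ZZ, dot_ind]; simp [YY]
    case q g => simp only [ZZ, dot_ind]; simp [YY]
    case x g => simp only [ZZ, dot_ind]; simp [YY]
    case l c => simp only [YY, hs]; simp [ZZ]
    case l' c => simp only [YY, hs]; simp [ZZ]
    case e g s => simp only [YY, hs]; simp [ZZ, e12]
    case ad g => simp only [YY, hs]; simp [ZZ, sl]
    case mm g => simp only [YY, hs]; simp [ZZ]
    case nn g => simp only [YY, hs]; simp [ZZ, sl]

theorem backward (h1 : ζ (vr one) = 1)
    (he : ∀ g (s : Fin 5), (s : ℕ) < 3 → ζ (e1 g s) = ζ (e2 gate g s))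
    (hg : ∀ g, if (gate g).1 then ζ (sl g 0) * ζ (sl g 1) = ζ (sl g 2)
      else ζ (sl g 0) + ζ (sl g 1) = ζ (sl g 2)) : OSol K (sY gate) (sZ gate) (Sg gate one) :=
  ⟨YY gate ζ, ZZ gate ζ, backwardE gate one ζ h1 he hg⟩

end Back

end OSenc

lemma OSol_equiv {K : Type*} [Field K] {I C I' C' : Type} [Fintype C] [Fintype C'] (eI : I ≃ I')
    (eC : C ≃ C') (sY sZ : I → C → Prop) (Sg : I → I → Prop) :
    OSol K (fun i x => sY (eI.symm i) (eC.symm x)) (fun i x => sZ (eI.symm i) (eC.symm x))
      (fun i j => Sg (eI.symm i) (eI.symm j)) ↔ OSol K sY sZ Sg := by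
  constructor
  · rintro ⟨Y, Z, h1, h2, h3, h4⟩
    refine ⟨fun i x => Y (eI i) (eC x), fun i x => Z (eI i) (eC x), ?_, ?_, ?_, ?_⟩
    · intro i x h; exact h1 _ _ (by simpa using h)
    · intro i x h; exact h2 _ _ (by simpa using h)
    · intro i j hij hS
      rw [Equiv.sum_comp eC (fun x => Y (eI i) x * Z (eI j) x)]
      exact h3 _ _ (fun h => hij (eI.injective h)) (by simpa using hS)
    · intro i
      rw [Equiv.sum_comp eC (fun x => Y (eI i) x * Z (eI i) x)]
      exact h4 _
  · rintro ⟨Y, Z, h1, h2, h3, h4⟩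
    refine ⟨fun i x => Y (eI.symm i) (eC.symm x), fun i x => Z (eI.symm i) (eC.symm x), ?_, ?_, ?_, ?_⟩
    · intro i x h; exact h1 _ _ h
    · intro i x h; exact h2 _ _ h
    · intro i j hij hS
      rw [Equiv.sum_comp eC.symm (fun x => Y (eI.symm i) x * Z (eI.symm j) x)]
      exact h3 _ _ (fun h => hij (eI.symm.injective h)) hS
    · intro i
      rw [Equiv.sum_comp eC.symm (fun x => Y (eI.symm i) x * Z (eI.symm i) x)]
      exact h4 _

/-- **gate systems are orthogonality systems** -/
theorem OS : S_OS := by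
  intro N M gate one
  classical
  let p := Fintype.card (OSenc.Ix N M)
  let q := Fintype.card (OSenc.Cx N M)
  let eI : OSenc.Ix N M ≃ Fin p := Fintype.equivFin _
  let eC : OSenc.Cx N M ≃ Fin q := Fintype.equivFin _
  have hp : p = 3 * N + 25 * M + 1 := OSenc.Ix.card N M
  have hq : q = N + 3 * M + 1 := by
    show Fintype.card (OSenc.Cx N M) = _
    simp only [OSenc.Cx, OSenc.Nd, Fintype.card_option, Fintype.card_sum, Fintype.card_prod,
      Fintype.card_fin]
    ring
  refine ⟨p, q, fun i x => OSenc.sY gate (eI.symm i) (eC.symm x),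
    fun i x => OSenc.sZ gate (eI.symm i) (eC.symm x),
    fun i j => OSenc.Sg gate one (eI.symm i) (eI.symm j), by omega, by omega, by omega, ?_⟩
  intro K _
  rw [OSol_equiv eI eC]
  constructor
  · exact OSenc.forward gate one
  · rintro ⟨x, h1, h2⟩
    let ζ : OSenc.Nd N M → K := fun c => match c with
      | Sum.inl i => x i
      | Sum.inr (g, 0) => x (gate g).2.1
      | Sum.inr (g, 1) => x (gate g).2.2.1
      | Sum.inr (g, 2) => x (gate g).2.2.2
    refine OSenc.backward gate one ζ h1 ?_ ?_
    · intro g s hs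
      fin_cases s
      · rfl
      · rfl
      · rfl
      · simp at hs
      · simp at hs
    · intro g
      exact h2 g

end Pool.Agent.SprJ
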