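import Pool.Agent.SprJ.Gate

/-!
# Integer polynomial systems are gate systems, with a bound   (helper8, after helper29's `Gate.lean`)
-/

set_option autoImplicit false

open MvPolynomial

namespace Pool.Agent.SprJ

/-- `L` forces the value of `f` -/
def Forces {a : ℕ} (f : MvPolynomial (Fin a) ℤ) (L : List (Bool × MvPolynomial (Fin a) ℤ ×
    MvPolynomial (Fin a) ℤ × MvPolynomial (Fin a) ℤ)) : Prop :=
  (∀ g ∈ L, gateValid g) ∧
    ∀ (K : Type) [Field K] (y : MvPolynomial (Fin a) ℤ → K), y 1 = 1 →
      (∀ g ∈ L, gateHolds y g) → y f = aeval (fun i => y (X i)) f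

theorem forces_nat {a : ℕ} (n : ℕ) : ∃ L, Forces (a := a) (C (n : ℤ)) L ∧ L.length ≤ n + 1 := by
  induction n with
  | zero =>
    refine ⟨[(false, C 0, C 0, C 0)], ⟨?_, ?_⟩, le_rfl⟩
    · intro g hg
      rw [List.mem_singleton] at hg
      subst hg
      simp [gateValid]
    · intro K _ y _ hL
      have h := hL _ (List.mem_singleton_self _)
      simp only [gateHolds, Bool.false_eq_true, if_false] at h
      have h0 : y (C 0) = 0 := by linear_combination h
      simpa using h0
  | succ n ih =>
    obtain ⟨L, ⟨hv, hL⟩, hlen⟩ := ih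
    refine ⟨(false, C (n : ℤ), 1, C ((n + 1 : ℕ) : ℤ)) :: L, ⟨?_, ?_⟩, by
      rw [List.length_cons]; omega⟩
    · intro g hg
      rcases List.mem_cons.1 hg with rfl | hg
      · simp [gateValid]
      · exact hv g hg
    · intro K _ y h1 hy
      have h := hy _ List.mem_cons_self
      simp only [gateHolds, Bool.false_eq_true, if_false] at h
      rw [← h, h1, hL K y h1 fun g hg => hy g (List.mem_cons_of_mem _ hg)]
      simp

theorem forces_neg {a : ℕ} (n : ℕ) : ∃ L, Forces (a := a) (C (-(n : ℤ))) L ∧ L.length ≤ n + 1 := by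
  induction n with
  | zero => simpa using forces_nat (a := a) 0
  | succ n ih =>
    obtain ⟨L, ⟨hv, hL⟩, hlen⟩ := ih
    refine ⟨(false, C (-((n + 1 : ℕ) : ℤ)), 1, C (-(n : ℤ))) :: L, ⟨?_, ?_⟩, by
      rw [List.length_cons]; omega⟩
    · intro g hg
      rcases List.mem_cons.1 hg with rfl | hg
      · simp [gateValid]
      · exact hv g hg
    · intro K _ y h1 hy
      have h := hy _ List.mem_cons_self
      simp only [gateHolds, Bool.false_eq_true, if_false] at h
      rw [h1, hL K y h1 fun g hg => hy g (List.mem_cons_of_mem _ hg)] at h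
      have h2 : y (C (-((n + 1 : ℕ) : ℤ))) = aeval (fun i => y (X i)) (C (-(n : ℤ))) - 1 := by
        linear_combination h
      rw [h2]
      simp
      ring

theorem forces_int {a : ℕ} (n : ℤ) : ∃ L, Forces (a := a) (C n) L ∧ L.length ≤ n.natAbs + 1 := by
  rcases Int.natAbs_eq n with h | h
  · have := forces_nat (a := a) n.natAbs
    rwa [← h] at this
  · have := forces_neg (a := a) n.natAbs
    rwa [← h] at this

theorem forces_monomial {a : ℕ} (c : ℤ) : ∀ (d : ℕ) (α : Fin a →₀ ℕ), Finsupp.degree α = d →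
    ∃ L, Forces (monomial α c) L ∧ L.length ≤ d + c.natAbs + 1 := by
  intro d
  induction d with
  | zero =>
    intro α hα
    have h0 : α = 0 := (Finsupp.degree_eq_zero_iff α).1 hα
    subst h0
    simpa using forces_int (a := a) c
  | succ d ih =>
    intro α hα
    have hne : α ≠ 0 := by
      rintro rfl
      simp at hα
    obtain ⟨i, hi⟩ := Finsupp.ne_iff.1 hne
    rw [Finsupp.coe_zero, Pi.zero_apply] at hi
    have hle : Finsupp.single i 1 ≤ α := Finsupp.single_le_iff.2 (Nat.one_le_iff_ne_zero.2 hi)
    obtain ⟨β, rfl⟩ := exists_add_of_le hle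
    have hβ : Finsupp.degree β = d := by
      rw [map_add, Finsupp.degree_single] at hα
      omega
    obtain ⟨L, ⟨hv, hL⟩, hlen⟩ := ih β hβ
    have hmul : monomial (Finsupp.single i 1 + β) c = monomial β c * X i := by
      rw [add_comm, X, monomial_mul, mul_one]
    refine ⟨(true, monomial β c, X i, monomial (Finsupp.single i 1 + β) c) :: L, ⟨?_, ?_⟩, by
      rw [List.length_cons]; omega⟩
    · intro g hg
      rcases List.mem_cons.1 hg with rfl | hg
      · simp only [gateValid, if_true]
        exact hmul.symm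
      · exact hv g hg
    · intro K _ y h1 hy
      have h := hy _ List.mem_cons_self
      simp only [gateHolds, if_true] at h
      rw [← h, hmul, map_mul, hL K y h1 fun g hg => hy g (List.mem_cons_of_mem _ hg), aeval_X]

theorem forces_sum {a : ℕ} (u : (Fin a →₀ ℕ) → ℤ) (s : Finset (Fin a →₀ ℕ)) :
    ∃ L, Forces (∑ α ∈ s, monomial α (u α)) L ∧
      L.length ≤ 1 + ∑ α ∈ s, (Finsupp.degree α + (u α).natAbs + 2) := by
  classical
  induction s using Finset.induction_on with
  | empty =>
    obtain ⟨L, h1, h2⟩ := forces_nat (a := a) 0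
    refine ⟨L, ?_, by simpa using h2⟩
    simpa using h1
  | insert α s hα ih =>
    obtain ⟨L, ⟨hv, hL⟩, hlen⟩ := ih
    obtain ⟨L', ⟨hv', hL'⟩, hlen'⟩ := forces_monomial (a := a) (u α) _ α rfl
    rw [Finset.sum_insert hα, Finset.sum_insert hα]
    refine ⟨(false, monomial α (u α), ∑ α ∈ s, monomial α (u α),
      monomial α (u α) + ∑ α ∈ s, monomial α (u α)) :: (L' ++ L), ⟨?_, ?_⟩, ?_⟩
    · intro g hg
      rcases List.mem_cons.1 hg with rfl | hg
      · simp [gateValid]
      · rcases List.mem_append.1 hg with hg | hg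
        · exact hv' g hg
        · exact hv g hg
    · intro K _ y h1 hy
      have h := hy _ List.mem_cons_self
      simp only [gateHolds, Bool.false_eq_true, if_false] at h
      rw [← h, map_add,
        hL' K y h1 fun g hg => hy g (List.mem_cons_of_mem _ (List.mem_append_left _ hg)),
        hL K y h1 fun g hg => hy g (List.mem_cons_of_mem _ (List.mem_append_right _ hg))]
    · rw [List.length_cons, List.length_append]
      omega

theorem forces {a : ℕ} (f : MvPolynomial (Fin a) ℤ) :
    ∃ L, Forces f L ∧ L.length ≤ 1 + 3 * len f := by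
  obtain ⟨L, h1, h2⟩ := forces_sum (fun α => f.coeff α) f.support
  rw [← f.as_sum] at h1
  refine ⟨L, h1, h2.trans (Nat.add_le_add_left ?_ _)⟩
  rw [len, Finset.mul_sum]
  refine Finset.sum_le_sum fun α hα => ?_
  have : (f.coeff α).natAbs ≠ 0 := Int.natAbs_ne_zero.2 (mem_support_iff.1 hα)
  omega

open scoped Classical in
/-- integer polynomial systems are gate systems, with a bound -/
theorem GateQ (a b : ℕ) (f : Fin b → MvPolynomial (Fin a) ℤ) :
    ∃ (N M : ℕ) (gate : Fin M → Bool × Fin N × Fin N × Fin N) (one : Fin N),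
      N + M + 1 ≤ 12 * (1 + ∑ l, (1 + len (f l))) ∧
      ∀ (K : Type) [Field K],
        GSol K gate one ↔ ∃ x : Fin a → K, ∀ l, MvPolynomial.aeval x (f l) = 0 := by
  choose L hF hlen using fun l => forces (f l)
  have hv := fun l => (hF l).1
  have hL := fun l => (hF l).2
  -- all gates
  let Z : List (Bool × MvPolynomial (Fin a) ℤ × MvPolynomial (Fin a) ℤ ×
    MvPolynomial (Fin a) ℤ) := (List.finRange b).map fun l => (false, f l, f l, f l)
  let T := (List.finRange b).flatMap L ++ Z
  have hT : T.length ≤ ∑ l, (2 + 3 * len (f l)) := by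
    have h1 : T.length = (∑ l, (L l).length) + b := by
      simp only [T, Z, List.length_append, List.length_flatMap, List.length_map,
        List.length_finRange]
      congr 1
    rw [h1]
    calc (∑ l, (L l).length) + b = ∑ l : Fin b, ((L l).length + 1) := by
          rw [Finset.sum_add_distrib]; simp
      _ ≤ ∑ l, (2 + 3 * len (f l)) := Finset.sum_le_sum fun l _ => by
          have := hlen l
          omega
  let S : Finset (MvPolynomial (Fin a) ℤ) := insert 1 (T.map (fun g => g.2.1) ++
    T.map (fun g => g.2.2.1) ++ T.map (fun g => g.2.2.2)).toFinset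
  have hScard : S.card ≤ 3 * T.length + 1 := by
    refine (Finset.card_insert_le _ _).trans ?_
    refine Nat.add_le_add_right ((List.toFinset_card_le _).trans ?_) 1
    simp only [List.length_append, List.length_map]
    omega
  have h1S : (1 : MvPolynomial (Fin a) ℤ) ∈ S := Finset.mem_insert_self _ _
  have hS1 : ∀ g ∈ T, g.2.1 ∈ S := fun g hg => Finset.mem_insert_of_mem (by
    rw [List.mem_toFinset]
    exact List.mem_append_left _ (List.mem_append_left _ (List.mem_map_of_mem hg)))
  have hS2 : ∀ g ∈ T, g.2.2.1 ∈ S := fun g hg => Finset.mem_insert_of_mem (by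
    rw [List.mem_toFinset]
    exact List.mem_append_left _ (List.mem_append_right _ (List.mem_map_of_mem hg)))
  have hS3 : ∀ g ∈ T, g.2.2.2 ∈ S := fun g hg => Finset.mem_insert_of_mem (by
    rw [List.mem_toFinset]
    exact List.mem_append_right _ (List.mem_map_of_mem hg))
  let e := S.equivFin
  refine ⟨S.card, T.length, fun g => ((T.get g).1, e ⟨(T.get g).2.1, hS1 _ (List.get_mem _ _)⟩,
    e ⟨(T.get g).2.2.1, hS2 _ (List.get_mem _ _)⟩, e ⟨(T.get g).2.2.2, hS3 _ (List.get_mem _ _)⟩),
    e ⟨1, h1S⟩, ?_, fun K _ => ⟨?_, ?_⟩⟩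
  · have h2 : ∑ l, (2 + 3 * len (f l)) ≤ 3 * ∑ l, (1 + len (f l)) := by
      rw [Finset.mul_sum]
      exact Finset.sum_le_sum fun l _ => by omega
    omega
  · rintro ⟨x, hx1, hx⟩
    let y : MvPolynomial (Fin a) ℤ → K := fun p => if h : p ∈ S then x (e ⟨p, h⟩) else 0
    have hyS : ∀ (p : MvPolynomial (Fin a) ℤ) (h : p ∈ S), y p = x (e ⟨p, h⟩) := fun p h =>
      dif_pos h
    have hy1 : y 1 = 1 := by rw [hyS 1 h1S]; exact hx1
    have hyT : ∀ g ∈ T, gateHolds y g := by
      intro g hg
      obtain ⟨k, rfl⟩ := List.get_of_mem hg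
      have h := hx k
      unfold gateHolds
      rw [hyS _ (hS1 _ (List.get_mem _ _)), hyS _ (hS2 _ (List.get_mem _ _)),
        hyS _ (hS3 _ (List.get_mem _ _))]
      exact h
    refine ⟨fun i => y (X i), fun l => ?_⟩
    have h0 : y (f l) = 0 := by
      have h := hyT (false, f l, f l, f l) (List.mem_append_right _
        (List.mem_map_of_mem (List.mem_finRange l)))
      simp only [gateHolds, Bool.false_eq_true, if_false] at h
      linear_combination h
    rw [← h0]
    exact (hL l K y hy1 fun g hg => hyT g (List.mem_append_left _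
      (List.mem_flatMap.2 ⟨l, List.mem_finRange l, hg⟩))).symm
  · rintro ⟨x, hx⟩
    have hyT : ∀ g ∈ T, gateHolds (fun p : MvPolynomial (Fin a) ℤ => aeval x p) g := by
      intro g hg
      rcases List.mem_append.1 hg with hg | hg
      · obtain ⟨l, _, hg⟩ := List.mem_flatMap.1 hg
        exact gateHolds_of_valid x g (hv l g hg)
      · obtain ⟨l, _, rfl⟩ := List.mem_map.1 hg
        simp [gateHolds, hx l]
    refine ⟨fun k => aeval x ((e.symm k : S) : MvPolynomial (Fin a) ℤ), ?_, fun g => ?_⟩
    · simp
    · have h := hyT _ (List.get_mem T g)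
      simpa [gateHolds] using h

end Pool.Agent.SprJ
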