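import Pool.Agent.SprJ.Stmts

/-!
# Analysis of the cell (MP_3a0658_ag)   (helper8)
-/

set_option autoImplicit false
set_option linter.unusedSectionVars false

open Matrix

namespace Pool.Agent.SprJ

section XLsec

variable {K : Type*} [Field K] {m : ℕ} {I C : Type} [Fintype I] [Fintype C] [DecidableEq I]
  [DecidableEq C]

lemma XL_mulVec (y : Lab m I C → K) (t : Fin m) (q : Lb I C) (h : (t : ℕ) + 1 < m) :
    (XL K m I C *ᵥ y) (t, q) = y (⟨(t : ℕ) + 1, h⟩, q) := by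
  unfold Matrix.mulVec dotProduct
  rw [Finset.sum_eq_single (⟨⟨(t : ℕ) + 1, h⟩, q⟩ : Lab m I C)]
  · simp [XL]
  · rintro ⟨t', q'⟩ _ hne
    have : ¬ ((t : ℕ) + 1 = (t' : ℕ) ∧ q = q') := by
      rintro ⟨h1, h2⟩
      apply hne
      rw [← h2]
      congr 1
      exact Fin.ext h1.symm
    simp [XL, this]
  · simp

lemma XL_mulVec_top (y : Lab m I C → K) (t : Fin m) (q : Lb I C) (h : ¬ ((t : ℕ) + 1 < m)) :
    (XL K m I C *ᵥ y) (t, q) = 0 := by
  unfold Matrix.mulVec dotProduct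
  apply Finset.sum_eq_zero
  rintro ⟨t', q'⟩ _
  have : ¬ ((t : ℕ) + 1 = (t' : ℕ) ∧ q = q') := by
    rintro ⟨h1, -⟩
    have := t'.2
    omega
  simp [XL, this]

end XLsec

section An

variable {I C : Type} [Fintype I] [Fintype C] [DecidableEq I] [DecidableEq C]
  {sY sZ : I → C → Prop} {Sg : I → I → Prop} {m₂ m₁ n : ℕ} {V : Lev sY sZ Sg m₂ m₁}
  (L : Lay V n) {K : Type} [Field K] (U : Matrix (Lab (m₂ + m₁) I C) (Lab (m₂ + m₁) I C) K)

/-- vectors of coefficients supported on early labels of level at most `t` -/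
def Sup (t : Fin (m₂ + m₁)) (κ : Lab (m₂ + m₁) I C → K) : Prop :=
  ∀ l, κ l ≠ 0 → early m₂ l ∧ l.1 ≤ t

/-- the subspace of level `t` -/
def FF (U : Matrix (Lab (m₂ + m₁) I C) (Lab (m₂ + m₁) I C) K) (t : Fin (m₂ + m₁)) :
    Submodule K (Lb I C → K) where
  carrier := {x | ∃ κ : Lab (m₂ + m₁) I C → K, Sup t κ ∧ ∀ q, (U *ᵥ κ) (t, q) = x q}
  add_mem' := by
    rintro x y ⟨κ, h1, h2⟩ ⟨κ', h1', h2'⟩
    refine ⟨κ + κ', fun l hl => ?_, fun q => ?_⟩
    · by_cases h : κ l = 0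
      · refine h1' l fun h' => hl ?_
        rw [Pi.add_apply, h, h', add_zero]
      · exact h1 l h
    · rw [Matrix.mulVec_add, Pi.add_apply, h2, h2', Pi.add_apply]
  zero_mem' := ⟨0, fun l hl => absurd rfl hl, fun q => by simp⟩
  smul_mem' := by
    rintro c x ⟨κ, h1, h2⟩
    refine ⟨c • κ, fun l hl => h1 l fun h => hl ?_, fun q => ?_⟩
    · rw [Pi.smul_apply, h, smul_zero]
    · rw [Matrix.mulVec_smul, Pi.smul_apply, h2, Pi.smul_apply]

variable {U}

omit [DecidableEq I] [DecidableEq C] in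
lemma mv (κ : Lab (m₂ + m₁) I C → K) (a : Lab (m₂ + m₁) I C) :
    (U *ᵥ κ) a = ∑ k, U a k * κ k := rfl

lemma max_idx (hU : ∀ a k, L.idx k < L.idx a → U a k = 0) (hUd : ∀ k, U k k ≠ 0)
    (κ : Lab (m₂ + m₁) I C → K) {l : Lab (m₂ + m₁) I C} (hl : κ l ≠ 0) :
    ∃ l0, κ l0 ≠ 0 ∧ (∀ k, κ k ≠ 0 → L.idx k ≤ L.idx l0) ∧ (U *ᵥ κ) l0 ≠ 0 := by
  classical
  obtain ⟨l0, h0, hmax⟩ := Finset.exists_max_image (Finset.univ.filter fun k => κ k ≠ 0) L.idx
    ⟨l, by simp [hl]⟩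
  have h1 : κ l0 ≠ 0 := (Finset.mem_filter.1 h0).2
  have h2 : ∀ k, κ k ≠ 0 → L.idx k ≤ L.idx l0 := fun k hk => hmax k (by simp [hk])
  refine ⟨l0, h1, h2, ?_⟩
  have h3 : (U *ᵥ κ) l0 = U l0 l0 * κ l0 := by
    rw [mv, Finset.sum_eq_single l0]
    · intro k _ hk
      by_cases h : κ k = 0
      · rw [h, mul_zero]
      · have h4 : L.idx k < L.idx l0 := lt_of_le_of_ne (h2 k h) fun e => hk (L.idx.injective e)
        rw [hU _ _ h4, zero_mul]
    · simp
  rw [h3]
  exact mul_ne_zero (hUd _) h1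

lemma mulVec_lt (hU : ∀ a k, L.idx k < L.idx a → U a k = 0) (κ : Lab (m₂ + m₁) I C → K)
    {a : Lab (m₂ + m₁) I C} (h : ∀ k, κ k ≠ 0 → L.idx k < L.idx a) : (U *ᵥ κ) a = 0 := by
  rw [mv]
  apply Finset.sum_eq_zero
  intro k _
  by_cases hk : κ k = 0
  · rw [hk, mul_zero]
  · rw [hU _ _ (h k hk), zero_mul]

/-- the maximal label of a vector of level `t` -/
lemma max_level (hU : ∀ a k, L.idx k < L.idx a → U a k = 0) (hUd : ∀ k, U k k ≠ 0)
    {t : Fin (m₂ + m₁)} {κ : Lab (m₂ + m₁) I C → K} (hκ : ∀ l, κ l ≠ 0 → l.1 ≤ t) :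
    (∀ q, (U *ᵥ κ) (t, q) = 0) ∨ ∃ q, κ (t, q) ≠ 0 ∧
      (∀ k, κ k ≠ 0 → L.idx k ≤ L.idx (t, q)) ∧ (U *ᵥ κ) (t, q) ≠ 0 := by
  by_cases h : ∃ l, κ l ≠ 0 ∧ l.1 = t
  · right
    obtain ⟨l, h1, h2⟩ := h
    obtain ⟨l0, h3, h4, h5⟩ := max_idx L hU hUd κ h1
    have h6 : l0.1 = t := by
      refine le_antisymm (hκ _ h3) ?_
      by_contra hlt
      push Not at hlt
      have h7 : L.idx l0 < L.idx l := by
        have := L.i1 l0.1 l.1 l0.2 l.2 (by rw [h2]; exact hlt)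
        simpa using this
      exact absurd (h4 l h1) (not_le.2 h7)
    obtain ⟨t0, q0⟩ := l0
    simp only at h6
    subst h6
    exact ⟨q0, h3, h4, h5⟩
  · left
    push Not at h
    intro q
    apply mulVec_lt L hU
    intro k hk
    have h1 : k.1 < t := lt_of_le_of_ne (hκ k hk) (h k hk)
    have := L.i1 k.1 t k.2 q h1
    simpa using this

lemma FF_step (hU : ∀ a k, L.idx k < L.idx a → U a k = 0) (hUd : ∀ k, U k k ≠ 0)
    {Z : Matrix (Lab (m₂ + m₁) I C) (Lab (m₂ + m₁) I C) K}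
    (hZ : ∀ l k, L.pos k < L.pos l → Z l k = 0) (hXU : XL K (m₂ + m₁) I C * U = U * Z)
    {t t' : Fin (m₂ + m₁)} (ht : (t' : ℕ) + 1 = (t : ℕ)) {x : Lb I C → K} (hx : x ∈ FF U t) :
    x ∈ FF U t' := by
  obtain ⟨κ, hκ, hκx⟩ := hx
  have hmv : U *ᵥ (Z *ᵥ κ) = XL K (m₂ + m₁) I C *ᵥ (U *ᵥ κ) := by
    rw [Matrix.mulVec_mulVec, ← hXU, ← Matrix.mulVec_mulVec]
  -- support of `Z κ`
  have hsup : ∀ l, (Z *ᵥ κ) l ≠ 0 → early m₂ l ∧ l.1 ≤ t := by
    intro l hl
    obtain ⟨k, _, hk⟩ := Finset.exists_ne_zero_of_sum_ne_zero hl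
    have hk1 := left_ne_zero_of_mul hk
    have hk2 := hκ k (right_ne_zero_of_mul hk)
    have hle : ¬ (L.pos k < L.pos l) := fun h => hk1 (hZ l k h)
    have he : early m₂ l := by
      by_contra hne
      exact hle (L.p1 k l hk2.1 hne)
    refine ⟨he, ?_⟩
    by_contra hlt
    push Not at hlt
    exact hle (L.p2 k l ⟨fun _ => he, fun _ => hk2.1⟩ (lt_of_le_of_lt hk2.2 hlt))
  have htop : ∀ q, (U *ᵥ (Z *ᵥ κ)) (t, q) = 0 := by
    intro q
    rw [hmv]
    by_cases h : (t : ℕ) + 1 < m₂ + m₁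
    · rw [XL_mulVec _ _ _ h]
      apply mulVec_lt L hU
      intro k hk
      have h1 : k.1 < (⟨(t : ℕ) + 1, h⟩ : Fin (m₂ + m₁)) := by
        have h2 : (k.1 : ℕ) ≤ (t : ℕ) := (hκ k hk).2
        show (k.1 : ℕ) < (t : ℕ) + 1
        omega
      have := L.i1 k.1 _ k.2 q h1
      simpa using this
    · exact XL_mulVec_top _ _ _ h
  have hlow : ∀ l, (Z *ᵥ κ) l ≠ 0 → l.1 ≤ t' := by
    intro l hl
    have h1 := (hsup l hl).2
    have hne : l.1 ≠ t := by
      rintro h2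
      obtain ⟨l0, h3, h4, h5⟩ := max_idx L hU hUd (Z *ᵥ κ) hl
      have h6 : l0.1 = t := by
        refine le_antisymm (hsup _ h3).2 ?_
        by_contra hlt
        push Not at hlt
        have h7 : L.idx l0 < L.idx l := by
          have := L.i1 l0.1 l.1 l0.2 l.2 (by rw [h2]; exact hlt)
          simpa using this
        exact absurd (h4 l hl) (not_le.2 h7)
      obtain ⟨t0, q0⟩ := l0
      simp only at h6
      subst h6
      exact h5 (htop q0)
    have h2 : (l.1 : ℕ) ≤ (t : ℕ) := h1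
    have h3 : (l.1 : ℕ) ≠ (t : ℕ) := fun e => hne (Fin.ext e)
    show (l.1 : ℕ) ≤ (t' : ℕ)
    omega
  refine ⟨Z *ᵥ κ, fun l hl => ⟨(hsup l hl).1, hlow l hl⟩, fun q => ?_⟩
  have hlt : (t' : ℕ) + 1 < m₂ + m₁ := by rw [ht]; exact t.2
  rw [hmv, XL_mulVec _ _ _ hlt, ← hκx q]
  congr 2
  exact Fin.ext ht

lemma FF_le (hU : ∀ a k, L.idx k < L.idx a → U a k = 0) (hUd : ∀ k, U k k ≠ 0)
    {Z : Matrix (Lab (m₂ + m₁) I C) (Lab (m₂ + m₁) I C) K}
    (hZ : ∀ l k, L.pos k < L.pos l → Z l k = 0) (hXU : XL K (m₂ + m₁) I C * U = U * Z) (d : ℕ) :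
    ∀ {t t' : Fin (m₂ + m₁)}, (t' : ℕ) + d = (t : ℕ) → ∀ {x : Lb I C → K}, x ∈ FF U t →
      x ∈ FF U t' := by
  induction d with
  | zero =>
    intro t t' h x hx
    have : t' = t := Fin.ext (by simpa using h)
    rw [this]; exact hx
  | succ d ih =>
    intro t t' h x hx
    have h1 : (t' : ℕ) + d < m₂ + m₁ := by have := t.2; omega
    have h2 : x ∈ FF U (⟨(t' : ℕ) + d, h1⟩ : Fin (m₂ + m₁)) :=
      FF_step L hU hUd hZ hXU (t := t) (by show (t' : ℕ) + d + 1 = (t : ℕ); omega) hx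
    exact ih (t := ⟨(t' : ℕ) + d, h1⟩) rfl h2

lemma FF_zero (hU : ∀ a k, L.idx k < L.idx a → U a k = 0) (hUd : ∀ k, U k k ≠ 0)
    {t : Fin (m₂ + m₁)} {x : Lb I C → K} (hx : x ∈ FF U t)
    (h0 : ∀ q, piv (ty m₂ t) q → x q = 0) : x = 0 := by
  obtain ⟨κ, hκ, hκx⟩ := hx
  rcases max_level L hU hUd (t := t) (κ := κ) (fun l hl => (hκ l hl).2) with h | ⟨q, h1, -, h3⟩
  · funext q; rw [← hκx, h]; rfl
  · exfalso
    rw [hκx] at h3
    exact h3 (h0 q (hκ _ h1).1)

lemma FF_be (hU : ∀ a k, L.idx k < L.idx a → U a k = 0) (hUd : ∀ k, U k k ≠ 0)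
    {t : Fin (m₂ + m₁)} {x : Lb I C → K} (hx : x ∈ FF U t)
    (h0 : ∀ q, piv (ty m₂ t) q → q ≠ V.al t → x q = 0) : x (V.be t) = 0 := by
  obtain ⟨κ, hκ, hκx⟩ := hx
  rcases max_level L hU hUd (t := t) (κ := κ) (fun l hl => (hκ l hl).2) with h | ⟨q, h1, h2, h3⟩
  · rw [← hκx, h]
  · rw [hκx] at h3
    have h4 : q = V.al t := by
      by_contra hne
      exact h3 (h0 q (hκ _ h1).1 hne)
    subst h4
    rw [← hκx]
    apply mulVec_lt L hU
    intro k hk
    exact lt_of_le_of_lt (h2 k hk) (L.i3 t)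

lemma FF_surj (hU : ∀ a k, L.idx k < L.idx a → U a k = 0) (hUd : ∀ k, U k k ≠ 0)
    (t : Fin (m₂ + m₁)) (ψ : Lb I C → K) :
    ∃ x ∈ FF U t, ∀ q, piv (ty m₂ t) q → x q = ψ q := by
  classical
  let P := {q : Lb I C // piv (ty m₂ t) q}
  let ext : (P → K) → (Lab (m₂ + m₁) I C → K) := fun κ l =>
    if h : l.1 = t ∧ piv (ty m₂ t) l.2 then κ ⟨l.2, h.2⟩ else 0
  have ext_add : ∀ κ κ', ext (κ + κ') = ext κ + ext κ' := by
    intro κ κ'; funext l
    by_cases h : l.1 = t ∧ piv (ty m₂ t) l.2 <;> simp [ext, h]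
  have ext_smul : ∀ (c : K) κ, ext (c • κ) = c • ext κ := by
    intro c κ; funext l
    by_cases h : l.1 = t ∧ piv (ty m₂ t) l.2 <;> simp [ext, h]
  let Φ : (P → K) →ₗ[K] (P → K) :=
    { toFun := fun κ q => (U *ᵥ ext κ) (t, q.1)
      map_add' := by
        intro κ κ'; funext q
        simp only [ext_add, Matrix.mulVec_add, Pi.add_apply]
      map_smul' := by
        intro c κ; funext q
        simp only [ext_smul, Matrix.mulVec_smul, Pi.smul_apply, RingHom.id_apply] }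
  have hsup : ∀ κ l, ext κ l ≠ 0 → l.1 = t ∧ piv (ty m₂ t) l.2 := by
    intro κ l hl
    by_contra h
    exact hl (by simp only [ext, dif_neg h])
  have hinj : Function.Injective Φ := by
    rw [← LinearMap.ker_eq_bot, LinearMap.ker_eq_bot']
    intro κ hκ
    rcases max_level L hU hUd (t := t) (κ := ext κ) (fun l hl => (hsup κ l hl).1.le) with
      h | ⟨q, h1, -, h3⟩
    · by_contra hne
      obtain ⟨q, hq⟩ := Function.ne_iff.1 hne
      have h4 : ext κ (t, q.1) ≠ 0 := by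
        simp only [ext]
        rw [dif_pos ⟨trivial, q.2⟩]
        exact hq
      obtain ⟨l0, h5, -, h7⟩ := max_idx L hU hUd (ext κ) h4
      obtain ⟨t0, q0⟩ := l0
      have h8 := (hsup κ _ h5).1
      simp only at h8
      subst h8
      exact h7 (h q0)
    · exfalso
      have h4 := congrFun hκ ⟨q, (hsup κ _ h1).2⟩
      exact h3 h4
  have hsurj : Function.Surjective Φ := LinearMap.injective_iff_surjective.1 hinj
  obtain ⟨κ, hκ⟩ := hsurj (fun q => ψ q.1)
  refine ⟨fun q => (U *ᵥ ext κ) (t, q), ⟨ext κ, fun l hl => ?_, fun q => rfl⟩, fun q hq => ?_⟩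
  · obtain ⟨h1, h2⟩ := hsup κ l hl
    refine ⟨?_, h1.le⟩
    show piv (ty m₂ l.1) l.2
    rw [h1]; exact h2
  · exact congrFun hκ ⟨q, hq⟩

/-! ### minors -/

lemma exists_threshold (S : Lab (m₂ + m₁) I C → Prop)
    (hS : ∀ l k, S k → L.pos l < L.pos k → S l) :
    ∃ p : ℕ, ∀ k, S k ↔ ((L.pos k : Fin n) : ℕ) < p := by
  classical
  by_cases h : ∃ k, S k
  · obtain ⟨k, hk⟩ := h
    obtain ⟨l0, h0, hmax⟩ := Finset.exists_max_image (Finset.univ.filter fun k => S k) L.pos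
      ⟨k, by simp [hk]⟩
    have h1 : S l0 := (Finset.mem_filter.1 h0).2
    refine ⟨(L.pos l0 : ℕ) + 1, fun k => ⟨fun hk => ?_, fun hk => ?_⟩⟩
    · have : L.pos k ≤ L.pos l0 := hmax k (by simp [hk])
      exact Nat.lt_succ_of_le this
    · rcases lt_or_eq_of_le (Nat.lt_succ_iff.1 hk) with h2 | h2
      · exact hS k l0 h1 h2
      · have : k = l0 := L.pos.injective (Fin.ext h2)
        rw [this]; exact h1
  · push Not at h
    exact ⟨0, fun k => ⟨fun hk => absurd hk (h k), fun hk => absurd hk (Nat.not_lt_zero _)⟩⟩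

lemma sum_sub (p : Lab (m₂ + m₁) I C → Prop) [DecidablePred p] (f : Lab (m₂ + m₁) I C → K)
    (h : ∀ k, ¬ p k → f k = 0) : ∑ k, f k = ∑ k : {k // p k}, f k.1 := by
  rw [← Finset.sum_subtype (Finset.univ.filter p) (fun x => by simp) f]
  rw [Finset.sum_filter_of_ne]
  intro x _ hx
  by_contra hp
  exact hx (h x hp)

/-- the minors are injective -/
lemma minor_inj (hdet : ∀ p : ℕ, ((Matrix.of fun a b : {k : Lab (m₂ + m₁) I C //
      ((L.pos k : Fin n) : ℕ) < p} => U (sig m₂ a.1) b.1).det ≠ 0))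
    (p : ℕ) (κ : Lab (m₂ + m₁) I C → K) (hκ : ∀ k, κ k ≠ 0 → ((L.pos k : Fin n) : ℕ) < p)
    (h : ∀ l, ((L.pos l : Fin n) : ℕ) < p → (U *ᵥ κ) (sig m₂ l) = 0) : κ = 0 := by
  have h1 := Matrix.eq_zero_of_mulVec_eq_zero (hdet p) (v := fun k => κ k.1) (by
    funext a
    have h2 := h a.1 a.2
    rw [mv, sum_sub (fun k => ((L.pos k : Fin n) : ℕ) < p)] at h2
    · exact h2
    · intro k hk
      have : κ k = 0 := by
        by_contra hne; exact hk (hκ k hne)
      rw [this, mul_zero])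
  funext k
  by_contra hne
  exact hne (congrFun h1 ⟨k, hκ k hne⟩)

/-- the minors are surjective -/
lemma minor_surj (hdet : ∀ p : ℕ, ((Matrix.of fun a b : {k : Lab (m₂ + m₁) I C //
      ((L.pos k : Fin n) : ℕ) < p} => U (sig m₂ a.1) b.1).det ≠ 0))
    (p : ℕ) (ψ : Lab (m₂ + m₁) I C → K) :
    ∃ κ : Lab (m₂ + m₁) I C → K, (∀ k, κ k ≠ 0 → ((L.pos k : Fin n) : ℕ) < p) ∧
      ∀ l, ((L.pos l : Fin n) : ℕ) < p → (U *ᵥ κ) (sig m₂ l) = ψ l := by
  classical
  set N : Matrix {k : Lab (m₂ + m₁) I C // ((L.pos k : Fin n) : ℕ) < p}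
    {k : Lab (m₂ + m₁) I C // ((L.pos k : Fin n) : ℕ) < p} K :=
    Matrix.of fun a b => U (sig m₂ a.1) b.1 with hN
  let y := N⁻¹ *ᵥ (fun a => ψ a.1)
  let κ : Lab (m₂ + m₁) I C → K := fun k => if h : ((L.pos k : Fin n) : ℕ) < p then y ⟨k, h⟩ else 0
  refine ⟨κ, fun k hk => ?_, fun l hl => ?_⟩
  · by_contra h
    exact hk (by simp only [κ, dif_neg h])
  · rw [mv, sum_sub (fun k => ((L.pos k : Fin n) : ℕ) < p)]
    · have h1 : N *ᵥ y = fun a => ψ a.1 := by
        have hu : IsUnit N.det := isUnit_iff_ne_zero.2 (hdet p)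
        rw [Matrix.mulVec_mulVec, Matrix.mul_nonsing_inv _ hu, Matrix.one_mulVec]
      have h2 := congrFun h1 ⟨l, hl⟩
      simp only at h2
      rw [← h2]
      show _ = ∑ k, N ⟨l, hl⟩ k * y k
      refine Finset.sum_congr rfl fun k _ => ?_
      have : κ k.1 = y k := by simp only [κ, dif_pos k.2]
      rw [this]
      rfl
    · intro k hk
      simp only [κ, dif_neg hk, mul_zero]

lemma FF_first (hU : ∀ a k, L.idx k < L.idx a → U a k = 0)
    (hdet : ∀ p : ℕ, ((Matrix.of fun a b : {k : Lab (m₂ + m₁) I C //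
      ((L.pos k : Fin n) : ℕ) < p} => U (sig m₂ a.1) b.1).det ≠ 0))
    {t : Fin (m₂ + m₁)} (ht : (t : ℕ) = m₂) {x : Lb I C → K} (hx : x ∈ FF U t)
    (h0 : ∀ i, x (.d i) = 0) : x = 0 := by
  obtain ⟨κ, hκ, hκx⟩ := hx
  -- thresholds
  obtain ⟨p1, hp1⟩ := exists_threshold L (fun k => early m₂ k ∧ k.1 < t) (by
    rintro l k ⟨h1, h2⟩ h3
    have he : early m₂ l := by
      by_contra hne; exact absurd (L.p1 k l h1 hne) (not_lt.2 h3.le)
    refine ⟨he, ?_⟩
    by_contra h4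
    push Not at h4
    exact absurd (L.p2 k l ⟨fun _ => he, fun _ => h1⟩ (lt_of_lt_of_le h2 h4)) (not_lt.2 h3.le))
  obtain ⟨p2, hp2⟩ := exists_threshold L (fun k => early m₂ k ∧ k.1 ≤ t) (by
    rintro l k ⟨h1, h2⟩ h3
    have he : early m₂ l := by
      by_contra hne; exact absurd (L.p1 k l h1 hne) (not_lt.2 h3.le)
    refine ⟨he, ?_⟩
    by_contra h4
    push Not at h4
    exact absurd (L.p2 k l ⟨fun _ => he, fun _ => h1⟩ (lt_of_le_of_lt h2 h4)) (not_lt.2 h3.le))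
  have hty : ty m₂ t = false := by simp [ty, ht]
  obtain ⟨μ, hμ, hμ'⟩ := minor_surj L hdet p1 (fun l => (U *ᵥ κ) (sig m₂ l))
  have hμs : ∀ k, μ k ≠ 0 → early m₂ k ∧ k.1 < t := fun k hk => (hp1 k).2 (hμ k hk)
  have hμt : ∀ q, (U *ᵥ μ) (t, q) = 0 := by
    intro q
    apply mulVec_lt L hU
    intro k hk
    have := L.i1 k.1 t k.2 q (hμs k hk).2
    simpa using this
  have hz : κ - μ = 0 := by
    apply minor_inj L hdet p2
    · intro k hk
      rw [← hp2]
      by_cases h : κ k = 0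
      · have h1 : μ k ≠ 0 := by
          intro h'; apply hk; rw [Pi.sub_apply, h, h', sub_zero]
        exact ⟨(hμs k h1).1, (hμs k h1).2.le⟩
      · exact hκ k h
    · intro l hl
      rw [← hp2] at hl
      rw [Matrix.mulVec_sub, Pi.sub_apply]
      rcases lt_or_eq_of_le hl.2 with h | h
      · rw [hμ' l ((hp1 l).1 ⟨hl.1, h⟩), sub_self]
      · obtain ⟨t0, q⟩ := l
        simp only at h
        subst h
        have he : piv (ty m₂ t0) q := hl.1
        rw [hty] at he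
        cases q with
        | a i =>
          have hs : sig m₂ (t0, Lb.a i) = (t0, (Lb.d i : Lb I C)) := by
            simp only [sig, hty, sg]
          rw [hs, hκx, h0, hμt, sub_zero]
        | c x => exact absurd he (by simp [piv])
        | c' i => exact absurd he (by simp [piv])
        | d i => exact absurd he (by simp [piv])
  have hκμ : κ = μ := sub_eq_zero.1 hz
  funext q
  rw [← hκx, hκμ, hμt]
  rfl

end An

/-- **analysis of the cell** -/
theorem An : S_An := by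
  intro I C _ _ _ _ sY sZ Sg m₂ m₁ n V L K _ hm2 hm1 U Z hU hUd hZ hXU hdet
  classical
  -- levels
  let t2 : Fin (m₂ + m₁) := ⟨m₂ - 1, by omega⟩
  let t1 : Fin (m₂ + m₁) := ⟨m₂, by omega⟩
  let tl : Fin (m₂ + m₁) := ⟨m₂ + m₁ - 1, by omega⟩
  have hty2 : ty m₂ t2 = true := by
    simp only [ty, t2, decide_eq_true_eq]; omega
  have htyl : ty m₂ tl = false := by
    simp only [ty, tl, decide_eq_false_iff_not]; omega
  have down : ∀ {t t' : Fin (m₂ + m₁)}, (t' : ℕ) ≤ (t : ℕ) → ∀ {x : Lb I C → K}, x ∈ FF U t →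
      x ∈ FF U t' := by
    intro t t' h x hx
    exact FF_le L hU hUd hZ hXU ((t : ℕ) - (t' : ℕ)) (by omega) hx
  -- echelon bases
  have e2 : ∀ p : Lb I C, ∃ x ∈ FF U t2, ∀ q, piv true q → x q = if q = p then 1 else 0 := by
    intro p
    obtain ⟨x, hx, hx'⟩ := FF_surj L hU hUd t2 (fun q => if q = p then 1 else 0)
    rw [hty2] at hx'
    exact ⟨x, hx, hx'⟩
  have e1 : ∀ i : I, ∃ x ∈ FF U tl, ∀ j : I, x (.a j) = if j = i then 1 else 0 := by
    intro i
    obtain ⟨x, hx, hx'⟩ := FF_surj L hU hUd tl (fun q => if q = .a i then 1 else 0)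
    rw [htyl] at hx'
    refine ⟨x, hx, fun j => ?_⟩
    rw [hx' (.a j) trivial]
    simp
  choose X2 hX2 hX2' using e2
  choose y hy hy' using e1
  -- prescribed zeros
  have z2 : ∀ p j, cond2 sZ Sg p (.d j) → X2 p (.d j) = 0 := by
    intro p j hc
    obtain ⟨t, ht, hal, hbe⟩ := V.f2 _ _ hc
    have hty : ty m₂ t = true := by simp [ty, ht]
    have hm : X2 p ∈ FF U t := down (by show (t : ℕ) ≤ m₂ - 1; omega) (hX2 p)
    have h1 := FF_be L hU hUd hm (by
      intro q hq hne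
      rw [hty] at hq
      rw [hX2' p q hq, if_neg]
      rw [← hal]; exact hne)
    rw [hbe] at h1
    exact h1
  have z1 : ∀ i q, cond1 sY (.a i) q → y i q = 0 := by
    intro i q hc
    obtain ⟨t, ht, hal, hbe⟩ := V.f1 _ _ hc
    have hty : ty m₂ t = false := by simp [ty, ht]
    have hm : y i ∈ FF U t := down (by show (t : ℕ) ≤ m₂ + m₁ - 1; have := t.2; omega) (hy i)
    have h1 := FF_be L hU hUd hm (by
      intro q' hq' hne
      rw [hty] at hq'
      rw [hal] at hne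
      cases q' with
      | a j =>
        rw [hy' i j, if_neg]
        rintro rfl; exact hne rfl
      | c x => exact absurd hq' (by simp [piv])
      | c' j => exact absurd hq' (by simp [piv])
      | d j => exact absurd hq' (by simp [piv]))
    rw [hbe] at h1
    exact h1
  -- the relation between the two echelon bases
  have rel : ∀ i j, y i (.d j) = X2 (.a i) (.d j) + ∑ x, y i (.c x) * X2 (.c x) (.d j) := by
    intro i j
    have hD : y i - X2 (.a i) - ∑ x, y i (.c x) • X2 (.c x) ∈ FF U t2 := by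
      refine Submodule.sub_mem _ (Submodule.sub_mem _ ?_ (hX2 _)) ?_
      · exact down (by show m₂ - 1 ≤ m₂ + m₁ - 1; omega) (hy i)
      · exact Submodule.sum_mem _ fun x _ => Submodule.smul_mem _ _ (hX2 _)
    have hD0 := FF_zero L hU hUd hD (by
      intro q hq
      rw [hty2] at hq
      have hs : (∑ x, y i (.c x) • X2 (.c x)) q = ∑ x, y i (.c x) * (if q = .c x then 1 else 0) := by
        rw [Finset.sum_apply]
        refine Finset.sum_congr rfl fun x _ => ?_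
        rw [Pi.smul_apply, smul_eq_mul, hX2' _ _ hq]
      rw [Pi.sub_apply, Pi.sub_apply, hs, hX2' _ _ hq]
      cases q with
      | a j =>
        rw [hy' i j]
        simp
      | c x => simp
      | c' j =>
        rw [z1 i (.c' j) trivial]
        simp
      | d j => exact absurd hq (by simp [piv]))
    have h1 := congrFun hD0 (.d j)
    rw [Pi.sub_apply, Pi.sub_apply, Finset.sum_apply, Pi.zero_apply] at h1
    simp only [Pi.smul_apply, smul_eq_mul] at h1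
    linear_combination h1
  refine ⟨fun i x => y i (.c x), fun j x => X2 (.c x) (.d j), ?_, ?_, ?_, ?_⟩
  · intro i x h
    exact z1 i (.c x) h
  · intro j x h
    exact z2 (.c x) j h
  · intro i j hij hS
    have h1 := rel i j
    rw [z1 i (.d j) hij, z2 (.a i) j (Or.inr hS), zero_add] at h1
    exact h1.symm
  · intro i h
    have h1 := rel i i
    rw [z2 (.a i) i (Or.inl rfl), zero_add, h] at h1
    have h2 : y i = 0 := by
      refine FF_first L hU hdet (t := t1) rfl (down (by show m₂ ≤ m₂ + m₁ - 1; omega) (hy i)) ?_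
      intro j
      by_cases hij : i = j
      · rw [← hij]; exact h1
      · exact z1 i (.d j) hij
    have h3 := hy' i i
    rw [h2] at h3
    simp at h3

end Pool.Agent.SprJ
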