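import Pool.Agent.SprJ.Stmts

/-!
# Enumeration of the levels (MP_3a0658_ag)   (helper8)
-/

set_option autoImplicit false

namespace Pool.Agent.SprJ

section Enum

variable {I C : Type} [Fintype I] [Fintype C] [DecidableEq I] [DecidableEq C]

open Classical in
/-- pairs of labels of type 2 -/
noncomputable def T2 (sZ : I → C → Prop) (Sg : I → I → Prop) : Finset (Lb I C × Lb I C) :=
  Finset.univ.filter fun x => cond2 sZ Sg x.1 x.2

open Classical in
/-- pairs of labels of type 1 -/
noncomputable def T1 (sY : I → C → Prop) : Finset (Lb I C × Lb I C) :=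
  Finset.univ.filter fun x => cond1 sY x.1 x.2

lemma mem_T2 {sZ : I → C → Prop} {Sg : I → I → Prop} {x : Lb I C × Lb I C} :
    x ∈ T2 sZ Sg ↔ cond2 sZ Sg x.1 x.2 := by
  simp [T2]

lemma mem_T1 {sY : I → C → Prop} {x : Lb I C × Lb I C} :
    x ∈ T1 sY ↔ cond1 sY x.1 x.2 := by
  simp [T1]

lemma card_T2 (sZ : I → C → Prop) (Sg : I → I → Prop) :
    (T2 sZ Sg).card ≤ Fintype.card C * Fintype.card I + Fintype.card I * Fintype.card I := by
  have h : T2 sZ Sg ⊆ (Finset.univ : Finset (C × I)).image (fun x => (Lb.c x.1, Lb.d x.2)) ∪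
      (Finset.univ : Finset (I × I)).image (fun x => (Lb.a x.1, Lb.d x.2)) := by
    rintro ⟨p, q⟩ h
    rw [mem_T2] at h
    rw [Finset.mem_union, Finset.mem_image, Finset.mem_image]
    cases p <;> cases q <;> first | exact (h : False).elim | skip
    case a.d i j => exact Or.inr ⟨(i, j), Finset.mem_univ _, rfl⟩
    case c.d x j => exact Or.inl ⟨(x, j), Finset.mem_univ _, rfl⟩
  refine (Finset.card_le_card h).trans ((Finset.card_union_le _ _).trans ?_)
  refine Nat.add_le_add (Finset.card_image_le.trans ?_) (Finset.card_image_le.trans ?_)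
  · rw [Finset.card_univ, Fintype.card_prod]
  · rw [Finset.card_univ, Fintype.card_prod]

lemma card_T1 (sY : I → C → Prop) :
    (T1 sY).card ≤ Fintype.card I * Fintype.card C + Fintype.card I * Fintype.card I
      + Fintype.card I * Fintype.card I := by
  have h : T1 sY ⊆ ((Finset.univ : Finset (I × C)).image (fun x => (Lb.a x.1, Lb.c x.2)) ∪
      (Finset.univ : Finset (I × I)).image (fun x => (Lb.a x.1, Lb.c' x.2))) ∪
      (Finset.univ : Finset (I × I)).image (fun x => (Lb.a x.1, Lb.d x.2)) := by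
    rintro ⟨p, q⟩ h
    rw [mem_T1] at h
    rw [Finset.mem_union, Finset.mem_union, Finset.mem_image, Finset.mem_image, Finset.mem_image]
    cases p <;> cases q <;> first | exact (h : False).elim | skip
    case a.c i x => exact Or.inl (Or.inl ⟨(i, x), Finset.mem_univ _, rfl⟩)
    case a.c' i j => exact Or.inl (Or.inr ⟨(i, j), Finset.mem_univ _, rfl⟩)
    case a.d i j => exact Or.inr ⟨(i, j), Finset.mem_univ _, rfl⟩
  refine (Finset.card_le_card h).trans ((Finset.card_union_le _ _).trans ?_)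
  refine Nat.add_le_add ((Finset.card_union_le _ _).trans ?_) (Finset.card_image_le.trans ?_)
  · refine Nat.add_le_add (Finset.card_image_le.trans ?_) (Finset.card_image_le.trans ?_)
    · rw [Finset.card_univ, Fintype.card_prod]
    · rw [Finset.card_univ, Fintype.card_prod]
  · rw [Finset.card_univ, Fintype.card_prod]

/-- levels exist -/
lemma lev_exists (sY sZ : I → C → Prop) (Sg : I → I → Prop) :
    Nonempty (Lev sY sZ Sg (T2 sZ Sg).card (T1 sY).card) := by
  classical
  let e2 := (T2 sZ Sg).equivFin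
  let e1 := (T1 sY).equivFin
  let al : Fin ((T2 sZ Sg).card + (T1 sY).card) → Lb I C :=
    Fin.addCases (fun i => (e2.symm i).1.1) (fun i => (e1.symm i).1.1)
  let be : Fin ((T2 sZ Sg).card + (T1 sY).card) → Lb I C :=
    Fin.addCases (fun i => (e2.symm i).1.2) (fun i => (e1.symm i).1.2)
  refine ⟨⟨al, be, ?_, ?_, ?_, ?_⟩⟩
  · intro t ht
    have : t = Fin.castAdd _ ⟨(t : ℕ), ht⟩ := Fin.ext rfl
    rw [this]
    simp only [al, be, Fin.addCases_left]
    exact mem_T2.1 (e2.symm _).2
  · intro t ht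
    have hlt := t.2
    have : t = Fin.natAdd _ ⟨(t : ℕ) - (T2 sZ Sg).card, by omega⟩ := Fin.ext (by simp; omega)
    rw [this]
    simp only [al, be, Fin.addCases_right]
    exact mem_T1.1 (e1.symm _).2
  · intro p q h
    refine ⟨Fin.castAdd _ (e2 ⟨(p, q), mem_T2.2 h⟩), by simp, ?_, ?_⟩
    · simp [al]
    · simp [be]
  · intro p q h
    refine ⟨Fin.natAdd _ (e1 ⟨(p, q), mem_T1.2 h⟩), by simp, ?_, ?_⟩
    · simp [al]
    · simp [be]

end Enum

lemma bound_aux {A p q m₂ m₁ n : ℕ} (hp : p ≤ 25 * A) (hq : q ≤ 3 * A)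
    (h2 : m₂ ≤ q * p + p * p) (h1 : m₁ ≤ p * q + p * p + p * p)
    (hn : n = (m₂ + m₁) * (3 * p + q)) : n ≤ 160000 * A ^ 3 := by
  have h3 : q * p ≤ (3 * A) * (25 * A) := Nat.mul_le_mul hq hp
  have h4 : p * p ≤ (25 * A) * (25 * A) := Nat.mul_le_mul hp hp
  have h5 : p * q ≤ (25 * A) * (3 * A) := Nat.mul_le_mul hp hq
  have h6 : m₂ + m₁ ≤ 2025 * (A * A) := by nlinarith
  have h7 : 3 * p + q ≤ 78 * A := by omega
  rw [hn]
  calc (m₂ + m₁) * (3 * p + q) ≤ (2025 * (A * A)) * (78 * A) := Nat.mul_le_mul h6 h7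
    _ = 157950 * A ^ 3 := by ring
    _ ≤ 160000 * A ^ 3 := Nat.mul_le_mul_right _ (by norm_num)

end Pool.Agent.SprJ
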