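import Pool.Agent.SprJ.Stmts

/-!
# Integer polynomial systems are gate systems   (helper29)

The variables of the gate system are finitely many integer polynomials; the canonical solution
attached to a point `x` is the evaluation at `x`.
-/

set_option autoImplicit false

open MvPolynomial

namespace Pool.Agent.SprJ

/-- the equation of a gate -/
def gateHolds {V K : Type} [Field K] (y : V → K) (g : Bool × V × V × V) : Prop :=
  if g.1 then y g.2.1 * y g.2.2.1 = y g.2.2.2 else y g.2.1 + y g.2.2.1 = y g.2.2.2

/-- a gate on polynomials that is a true identity -/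
def gateValid {a : ℕ} (g : Bool × MvPolynomial (Fin a) ℤ × MvPolynomial (Fin a) ℤ ×
    MvPolynomial (Fin a) ℤ) : Prop :=
  if g.1 then g.2.1 * g.2.2.1 = g.2.2.2 else g.2.1 + g.2.2.1 = g.2.2.2

theorem gateHolds_of_valid {a : ℕ} {K : Type} [Field K] (x : Fin a → K)
    (g : Bool × MvPolynomial (Fin a) ℤ × MvPolynomial (Fin a) ℤ × MvPolynomial (Fin a) ℤ)
    (h : gateValid g) : gateHolds (fun p : MvPolynomial (Fin a) ℤ => aeval x p) g := by
  unfold gateValid at h
  unfold gateHolds
  split_ifs at h ⊢ with hb
  · rw [← h]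
    exact (map_mul _ _ _).symm
  · rw [← h]
    exact (map_add _ _ _).symm

/-- the value of a constant is forced by finitely many gates -/
theorem exists_gates_int {a : ℕ} (n : ℤ) : ∃ L : List (Bool × MvPolynomial (Fin a) ℤ ×
    MvPolynomial (Fin a) ℤ × MvPolynomial (Fin a) ℤ), (∀ g ∈ L, gateValid g) ∧
    ∀ (K : Type) [Field K] (y : MvPolynomial (Fin a) ℤ → K), y 1 = 1 →
      (∀ g ∈ L, gateHolds y g) → y (C n) = (n : K) := by
  induction n using Int.induction_on with
  | zero =>
    refine ⟨[(false, C 0, C 0, C 0)], ?_, ?_⟩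
    · intro g hg
      rw [List.mem_singleton] at hg
      subst hg
      simp [gateValid]
    · intro K _ y _ hL
      have h := hL _ (List.mem_singleton_self _)
      simp only [gateHolds, Bool.false_eq_true, if_false] at h
      have h0 : y (C 0) = 0 := by linear_combination h
      rw [h0]
      simp
  | succ n ih =>
    obtain ⟨L, hv, hL⟩ := ih
    refine ⟨(false, C (n : ℤ), 1, C ((n : ℤ) + 1)) :: L, ?_, ?_⟩
    · intro g hg
      rcases List.mem_cons.1 hg with rfl | hg
      · simp [gateValid]
      · exact hv g hg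
    · intro K _ y h1 hy
      have h := hy _ List.mem_cons_self
      simp only [gateHolds, Bool.false_eq_true, if_false] at h
      rw [← h, h1, hL K y h1 fun g hg => hy g (List.mem_cons_of_mem _ hg)]
      push_cast
      ring
  | pred n ih =>
    obtain ⟨L, hv, hL⟩ := ih
    refine ⟨(false, C (-(n : ℤ) - 1), 1, C (-(n : ℤ))) :: L, ?_, ?_⟩
    · intro g hg
      rcases List.mem_cons.1 hg with rfl | hg
      · simp [gateValid]
      · exact hv g hg
    · intro K _ y h1 hy
      have h := hy _ List.mem_cons_self
      simp only [gateHolds, Bool.false_eq_true, if_false] at h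
      rw [h1, hL K y h1 fun g hg => hy g (List.mem_cons_of_mem _ hg)] at h
      have h2 : y (C (-(n : ℤ) - 1)) = ((-(n : ℤ) : ℤ) : K) - 1 := by linear_combination h
      rw [h2]
      push_cast
      ring

/-- the value of a polynomial is forced by finitely many gates -/
theorem exists_gates {a : ℕ} (f : MvPolynomial (Fin a) ℤ) : ∃ L : List (Bool ×
    MvPolynomial (Fin a) ℤ × MvPolynomial (Fin a) ℤ × MvPolynomial (Fin a) ℤ),
    (∀ g ∈ L, gateValid g) ∧
    ∀ (K : Type) [Field K] (y : MvPolynomial (Fin a) ℤ → K), y 1 = 1 →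
      (∀ g ∈ L, gateHolds y g) → y f = aeval (fun i => y (X i)) f := by
  induction f using MvPolynomial.induction_on with
  | C n =>
    obtain ⟨L, hv, hL⟩ := exists_gates_int (a := a) n
    refine ⟨L, hv, fun K _ y h1 hy => ?_⟩
    rw [hL K y h1 hy]
    simp
  | add p q hp hq =>
    obtain ⟨L, hv, hL⟩ := hp
    obtain ⟨L', hv', hL'⟩ := hq
    refine ⟨(false, p, q, p + q) :: (L ++ L'), ?_, ?_⟩
    · intro g hg
      rcases List.mem_cons.1 hg with rfl | hg
      · simp [gateValid]
      · rcases List.mem_append.1 hg with hg | hg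
        · exact hv g hg
        · exact hv' g hg
    · intro K _ y h1 hy
      have h := hy _ List.mem_cons_self
      simp only [gateHolds, Bool.false_eq_true, if_false] at h
      rw [← h, map_add,
        hL K y h1 fun g hg => hy g (List.mem_cons_of_mem _ (List.mem_append_left _ hg)),
        hL' K y h1 fun g hg => hy g (List.mem_cons_of_mem _ (List.mem_append_right _ hg))]
  | mul_X p i hp =>
    obtain ⟨L, hv, hL⟩ := hp
    refine ⟨(true, p, X i, p * X i) :: L, ?_, ?_⟩
    · intro g hg
      rcases List.mem_cons.1 hg with rfl | hg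
      · simp [gateValid]
      · exact hv g hg
    · intro K _ y h1 hy
      have h := hy _ List.mem_cons_self
      simp only [gateHolds, if_true] at h
      rw [← h, map_mul, hL K y h1 fun g hg => hy g (List.mem_cons_of_mem _ hg), aeval_X]

open scoped Classical in
/-- integer polynomial systems are gate systems -/
theorem Gate : S_Gate := by
  intro a b f
  choose L hv hL using fun l => exists_gates (f l)
  -- all gates
  let Z : List (Bool × MvPolynomial (Fin a) ℤ × MvPolynomial (Fin a) ℤ ×
    MvPolynomial (Fin a) ℤ) := (List.finRange b).map fun l => (false, f l, f l, f l)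
  let T := (List.finRange b).flatMap L ++ Z
  let S : Finset (MvPolynomial (Fin a) ℤ) := insert 1 (T.map (fun g => g.2.1) ++
    T.map (fun g => g.2.2.1) ++ T.map (fun g => g.2.2.2)).toFinset
  have h1S : (1 : MvPolynomial (Fin a) ℤ) ∈ S := Finset.mem_insert_self _ _
  have hS1 : ∀ g ∈ T, g.2.1 ∈ S := fun g hg => Finset.mem_insert_of_mem (by
    rw [List.mem_toFinset]
    exact List.mem_append_left _ (List.mem_append_left _ (List.mem_map_of_mem hg)))
  have hS2 : ∀ g ∈ T, g.2.2.1 ∈ S := fun g hg => Finset.mem_insert_of_mem (by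
    rw [List.mem_toFinset]
    exact List.mem_append_left _ (List.mem_append_right _ (List.mem_map_of_mem hg)))
  have hS3 : ∀ g ∈ T, g.2.2.2 ∈ S := fun g hg => Finset.mem_insert_of_mem (by
    rw [List.mem_toFinset]
    exact List.mem_append_right _ (List.mem_map_of_mem hg))
  let e := S.equivFin
  refine ⟨S.card, T.length, fun g => ((T.get g).1, e ⟨(T.get g).2.1, hS1 _ (List.get_mem _ _)⟩,
    e ⟨(T.get g).2.2.1, hS2 _ (List.get_mem _ _)⟩, e ⟨(T.get g).2.2.2, hS3 _ (List.get_mem _ _)⟩),
    e ⟨1, h1S⟩, fun K _ => ⟨?_, ?_⟩⟩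
  · rintro ⟨x, hx1, hx⟩
    let y : MvPolynomial (Fin a) ℤ → K := fun p => if h : p ∈ S then x (e ⟨p, h⟩) else 0
    have hyS : ∀ (p : MvPolynomial (Fin a) ℤ) (h : p ∈ S), y p = x (e ⟨p, h⟩) := fun p h =>
      dif_pos h
    have hy1 : y 1 = 1 := by rw [hyS 1 h1S]; exact hx1
    have hyT : ∀ g ∈ T, gateHolds y g := by
      intro g hg
      obtain ⟨k, rfl⟩ := List.get_of_mem hg
      have h := hx k
      unfold gateHolds
      rw [hyS _ (hS1 _ (List.get_mem _ _)), hyS _ (hS2 _ (List.get_mem _ _)),
        hyS _ (hS3 _ (List.get_mem _ _))]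
      exact h
    refine ⟨fun i => y (X i), fun l => ?_⟩
    have h0 : y (f l) = 0 := by
      have h := hyT (false, f l, f l, f l) (List.mem_append_right _
        (List.mem_map_of_mem (List.mem_finRange l)))
      simp only [gateHolds, Bool.false_eq_true, if_false] at h
      linear_combination h
    rw [← h0]
    exact (hL l K y hy1 fun g hg => hyT g (List.mem_append_left _
      (List.mem_flatMap.2 ⟨l, List.mem_finRange l, hg⟩))).symm
  · rintro ⟨x, hx⟩
    have hyT : ∀ g ∈ T, gateHolds (fun p : MvPolynomial (Fin a) ℤ => aeval x p) g := by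
      intro g hg
      rcases List.mem_append.1 hg with hg | hg
      · obtain ⟨l, _, hg⟩ := List.mem_flatMap.1 hg
        exact gateHolds_of_valid x g (hv l g hg)
      · obtain ⟨l, _, rfl⟩ := List.mem_map.1 hg
        simp [gateHolds, hx l]
    refine ⟨fun k => aeval x ((e.symm k : S) : MvPolynomial (Fin a) ℤ), ?_, fun g => ?_⟩
    · simp
    · have h := hyT _ (List.get_mem T g)
      simpa [gateHolds] using h

end Pool.Agent.SprJ
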