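import Pool.Agent.SprJ.LayEx
import Pool.Agent.SprJ.Tr
import Pool.Agent.SprJ.An
import Pool.Agent.SprJ.Pts
import Pool.Agent.SprJ.OS
import Pool.Agent.SprJ.Gate
import Pool.Agent.SprJ.Enum

/-!
# Assembly: gate systems and the Schubert cells of Springer fibres (MP_3a0658_ag)   (helper8)
-/

set_option autoImplicit false

namespace Pool.Agent.SprJ

/-- **gate systems are closure problems** -/
theorem gateMain (hCur : S_Cur) : S_GateMain := by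
  intro N M gate one
  classical
  obtain ⟨p, q, sY, sZ, Sg, hp0, hp, hq, hOS⟩ := OS N M gate one
  obtain ⟨V⟩ := lev_exists sY sZ Sg
  have hb2 := card_T2 sZ Sg
  have hb1 := card_T1 sY
  simp only [Fintype.card_fin] at hb2 hb1
  have pos2 : 0 < (T2 sZ Sg).card :=
    Finset.card_pos.2 ⟨(.a ⟨0, hp0⟩, .d ⟨0, hp0⟩), mem_T2.2 (Or.inl rfl)⟩
  have pos1 : 0 < (T1 sY).card :=
    Finset.card_pos.2 ⟨(.a ⟨0, hp0⟩, .c' ⟨0, hp0⟩), mem_T1.2 trivial⟩
  obtain ⟨L⟩ := Lay_ex (Fin p) (Fin q) sY sZ Sg _ _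
    (((T2 sZ Sg).card + (T1 sY).card) * (3 * p + q)) V (by simp only [Fintype.card_fin])
  let tb : Lb (Fin p) (Fin q) ≃ Fin (Fintype.card (Lb (Fin p) (Fin q))) := Fintype.equivFin _
  refine ⟨_, _, _, L.eps tb, L.v, L.w, ?_, ?_, ?_⟩
  · exact bound_aux hp hq hb2 hb1 rfl
  · exact (Pts (Fin p) (Fin q) sY sZ Sg _ _ _ _ V L tb ℚ).1
  · intro K _ _
    obtain ⟨-, h1, h2, h3⟩ := Pts (Fin p) (Fin q) sY sZ Sg _ _ _ _ V L tb K
    refine ⟨h1, h2, h3, ?_⟩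
    rw [← hOS K]
    constructor
    · intro h
      obtain ⟨U, Z, a1, a2, a3, a4, a5⟩ := Tr (Fin p) (Fin q) sY sZ Sg _ _ _ _ V L tb K h
      exact An (Fin p) (Fin q) sY sZ Sg _ _ _ V L K pos2 pos1 U Z a1 a2 a3 a4 a5
    · intro h
      exact hCur (Fin p) (Fin q) sY sZ Sg _ _ _ _ V L tb K h

end Pool.Agent.SprJ
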