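import Mathlib

/-!
# Springer fibres, Schubert cells and Zariski closures in `GL_n(K)/B`; matrices in Jordan form
(MP_3a0658_ag, universality for `X` in Jordan form)   (helper8)
-/

set_option autoImplicit false

open Matrix

namespace Pool.Agent.SprJ

section Basic

variable {K : Type*} [Field K] {n : ℕ}

/-- upper triangular matrices: the Lie algebra `𝔟` -/
def UT (M : Matrix (Fin n) (Fin n) K) : Prop := ∀ i j : Fin n, j < i → M i j = 0

/-- the Borel subgroup `B` of invertible upper triangular matrices -/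
def Borel (b : Matrix (Fin n) (Fin n) K) : Prop := UT b ∧ IsUnit b.det

/-- the permutation matrix of `w`: column `k` is the basis vector `e_{w k}` -/
def perm (K : Type*) [Field K] {n : ℕ} (w : Equiv.Perm (Fin n)) : Matrix (Fin n) (Fin n) K :=
  Matrix.of fun i k => if i = w k then 1 else 0

/-- `gB` lies in the Springer fibre of `X`: `g⁻¹ X g ∈ 𝔟` -/
def InSpringer (X g : Matrix (Fin n) (Fin n) K) : Prop := UT (g⁻¹ * X * g)

/-- the preimage in `GL_n(K)` of the Springer Schubert cell `C_w ∩ S_X`, `C_w = BwB/B` -/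
def Cell (X : Matrix (Fin n) (Fin n) K) (w : Equiv.Perm (Fin n)) :
    Set (Matrix (Fin n) (Fin n) K) :=
  {g | (∃ b b', Borel b ∧ Borel b' ∧ g = b * perm K w * b') ∧ InSpringer X g}

/-- `vB` lies in the Zariski closure of `C_w ∩ S_X`: every polynomial in the matrix entries that
vanishes on the preimage of `C_w ∩ S_X` in `GL_n(K)` vanishes at the permutation matrix of `v` -/
def InClosure (X : Matrix (Fin n) (Fin n) K) (v w : Equiv.Perm (Fin n)) : Prop :=
  ∀ P : MvPolynomial (Fin n × Fin n) K,
    (∀ g ∈ Cell X w, MvPolynomial.eval (fun p => g p.1 p.2) P = 0) →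
      MvPolynomial.eval (fun p => perm K v p.1 p.2) P = 0

/-- the nilpotent matrix with `r` Jordan blocks of size `m`, with respect to the basis
`e_{ε (t, q)}`, `t < m`, `q < r` (a permutation of the standard basis of `K^n`, `n = m r`):
`e_{ε (t + 1, q)} ↦ e_{ε (t, q)}`, `e_{ε (0, q)} ↦ 0` -/
def jordan (K : Type*) [Field K] {n m r : ℕ} (ε : Fin m × Fin r ≃ Fin n) :
    Matrix (Fin n) (Fin n) K :=
  Matrix.of fun i j =>
    if ((ε.symm i).1 : ℕ) + 1 = ((ε.symm j).1 : ℕ) ∧ (ε.symm i).2 = (ε.symm j).2 then 1 else 0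

end Basic

/-- length of an integer polynomial: the sum, over its terms `c x^α`, of `|α| + |c|` -/
noncomputable def len {a : ℕ} (f : MvPolynomial (Fin a) ℤ) : ℕ :=
  ∑ α ∈ f.support, (Finsupp.degree α + (f.coeff α).natAbs)

end Pool.Agent.SprJ
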