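import Pool.Agent.SprJ.Stmts

/-!
# Graph colouring as a gate system (MP_3a0658_ag)   (helper8)
-/

set_option autoImplicit false

namespace Pool.Agent.SprJ

/-- gate systems over arbitrary index types -/
def GSolT (K : Type*) [Field K] {V G : Type} (gate : G → Bool × V × V × V) (one : V) : Prop :=
  ∃ x : V → K, x one = 1 ∧ ∀ g : G,
    if (gate g).1 then x (gate g).2.1 * x (gate g).2.2.1 = x (gate g).2.2.2
    else x (gate g).2.1 + x (gate g).2.2.1 = x (gate g).2.2.2

lemma GSolT_fin (V G : Type) [Fintype V] [Fintype G] (gate : G → Bool × V × V × V) (one : V) :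
    ∃ (gate' : Fin (Fintype.card G) → Bool × Fin (Fintype.card V) × Fin (Fintype.card V) ×
        Fin (Fintype.card V)) (one' : Fin (Fintype.card V)),
      ∀ (K : Type) [Field K], GSol K gate' one' ↔ GSolT K gate one := by
  classical
  let eV : V ≃ Fin (Fintype.card V) := Fintype.equivFin _
  let eG : G ≃ Fin (Fintype.card G) := Fintype.equivFin _
  refine ⟨fun g => ((gate (eG.symm g)).1, eV (gate (eG.symm g)).2.1, eV (gate (eG.symm g)).2.2.1,
    eV (gate (eG.symm g)).2.2.2), eV one, ?_⟩
  intro K _
  constructor
  · rintro ⟨x, h1, h2⟩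
    refine ⟨fun v => x (eV v), h1, fun g => ?_⟩
    have := h2 (eG g)
    simpa only [Equiv.symm_apply_apply] using this
  · rintro ⟨x, h1, h2⟩
    refine ⟨fun v => x (eV.symm v), by simpa using h1, fun g => ?_⟩
    have := h2 (eG.symm g)
    simpa only [Equiv.symm_apply_apply] using this

namespace Colour

variable {m k : ℕ}

/-- variables: `1` and `0`, `y v c`, `t v c`, `P v j` -/
abbrev Vr (m k : ℕ) : Type := Bool ⊕ (Fin m × Fin k) ⊕ (Fin m × Fin k) ⊕ (Fin m × Fin (k + 1))

/-- gates -/
abbrev Gt (m k : ℕ) : Type :=
  Unit ⊕ (Fin m × Fin k) ⊕ Fin m ⊕ (Fin m × Fin k) ⊕ Fin m ⊕ (Fin m × Fin m × Fin k)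

/-- the variable `1` -/
def vo : Vr m k := .inl true
/-- the variable `0` -/
def vz : Vr m k := .inl false
/-- `y v c` -/
def vy (v : Fin m) (c : Fin k) : Vr m k := .inr (.inl (v, c))
/-- `t v c` -/
def vt (v : Fin m) (c : Fin k) : Vr m k := .inr (.inr (.inl (v, c)))
/-- `P v j` -/
def vP (v : Fin m) (j : Fin (k + 1)) : Vr m k := .inr (.inr (.inr (v, j)))

open Classical in
/-- the gates for `k`-colourings of `G` -/
noncomputable def gates (G : SimpleGraph (Fin m)) (k : ℕ) : Gt m k → Bool × Vr m k × Vr m k × Vr m k
  | .inl () => (false, vz, vo, vo)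
  | .inr (.inl (v, c)) => (false, vt v c, vy v c, vo)
  | .inr (.inr (.inl v)) => (false, vP v 0, vz, vo)
  | .inr (.inr (.inr (.inl (v, c)))) => (true, vP v c.castSucc, vt v c, vP v c.succ)
  | .inr (.inr (.inr (.inr (.inl v)))) => (false, vP v (Fin.last k), vz, vz)
  | .inr (.inr (.inr (.inr (.inr (u, v, c))))) =>
      if G.Adj u v then (true, vy u c, vy v c, vz) else (true, vz, vz, vz)

theorem gates_iff (G : SimpleGraph (Fin m)) (k : ℕ) (K : Type) [Field K] :
    GSolT K (gates G k) vo ↔ G.Colorable k := by
  classical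
  constructor
  · rintro ⟨x, h1, h2⟩
    have hz : x (vz : Vr m k) = 0 := by
      have := h2 (.inl ())
      simp only [gates, Bool.false_eq_true, if_false] at this
      simpa using this
    have ht : ∀ v c, x (vt v c) + x (vy v c) = (1 : K) := by
      intro v c
      have := h2 (.inr (.inl (v, c)))
      simp only [gates, Bool.false_eq_true, if_false] at this
      rw [this, h1]
    have hP0 : ∀ v, x (vP v 0) = (1 : K) := by
      intro v
      have := h2 (.inr (.inr (.inl v)))
      simp only [gates, Bool.false_eq_true, if_false] at this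
      rw [hz, add_zero] at this
      rw [this, h1]
    have hPs : ∀ v (c : Fin k), x (vP v c.castSucc) * x (vt v c) = x (vP v c.succ) := by
      intro v c
      have := h2 (.inr (.inr (.inr (.inl (v, c)))))
      simpa only [gates, if_true] using this
    have hPl : ∀ v : Fin m, x (vP v (Fin.last k)) = 0 := by
      intro v
      have := h2 (.inr (.inr (.inr (.inr (.inl v)))))
      simp only [gates, Bool.false_eq_true, if_false] at this
      rwa [hz, add_zero] at this
    have hE : ∀ u v c, G.Adj u v → x (vy u c) * x (vy v c) = 0 := by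
      intro u v c huv
      have := h2 (.inr (.inr (.inr (.inr (.inr (u, v, c))))))
      simp only [gates, if_pos huv, if_true] at this
      rwa [hz] at this
    have hc : ∀ v : Fin m, ∃ c : Fin k, x (vy v c) = 1 := by
      intro v
      by_contra hcon
      push Not at hcon
      have h3 : ∀ j : Fin (k + 1), x (vP v j) ≠ 0 := by
        intro j
        induction j using Fin.induction with
        | zero => rw [hP0]; exact one_ne_zero
        | succ c ih =>
          rw [← hPs]
          refine mul_ne_zero ih fun h0 => hcon c ?_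
          have := ht v c
          rwa [h0, zero_add] at this
      exact h3 _ (hPl v)
    choose col hcol using hc
    refine ⟨SimpleGraph.Coloring.mk col fun {u v} huv heq => ?_⟩
    have := hE u v (col u) huv
    rw [hcol u, heq, hcol v, one_mul] at this
    exact one_ne_zero this
  · rintro ⟨C⟩
    let x : Vr m k → K
      | .inl b => if b then 1 else 0
      | .inr (.inl (v, c)) => if C v = c then 1 else 0
      | .inr (.inr (.inl (v, c))) => if C v = c then 0 else 1
      | .inr (.inr (.inr (v, j))) => if ((C v : Fin k) : ℕ) < (j : ℕ) then 0 else 1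
    refine ⟨x, rfl, ?_⟩
    rintro (_ | ⟨v, c⟩ | v | ⟨v, c⟩ | v | ⟨u, v, c⟩)
    · simp [gates, x, vz, vo]
    · simp only [gates, Bool.false_eq_true, if_false, x, vt, vy, vo, if_true]
      split_ifs <;> simp
    · simp [gates, x, vP, vz, vo]
    · simp only [gates, if_true, x, vP, vt, Fin.val_castSucc, Fin.val_succ]
      by_cases h1 : ((C v : Fin k) : ℕ) < c
      · rw [if_pos h1, zero_mul, if_pos (by omega)]
      · by_cases h2 : C v = c
        · have h3 : ((C v : Fin k) : ℕ) = c := by rw [h2]
          rw [if_pos h2, mul_zero, if_pos (by omega)]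
        · have h3 : ((C v : Fin k) : ℕ) ≠ c := fun h => h2 (Fin.ext h)
          rw [if_neg h1, if_neg h2, one_mul, if_neg (by omega)]
    · simp [gates, x, vP, vz, (C v).2]
    · by_cases huv : G.Adj u v
      · simp only [gates, if_pos huv, if_true]
        simp only [x, vy, vz, Bool.false_eq_true, if_false]
        by_cases h2 : C u = c
        · have h3 : C v ≠ c := fun h => C.valid huv (h2.trans h.symm)
          rw [if_neg h3, mul_zero]
        · rw [if_neg h2, zero_mul]
      · simp only [gates, if_neg huv, if_true]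
        simp [x, vz]

end Colour

/-- **graph colouring is a gate system of polynomial size** -/
theorem colour_gates (m k : ℕ) (G : SimpleGraph (Fin m)) :
    ∃ (N M : ℕ) (gate : Fin M → Bool × Fin N × Fin N × Fin N) (one : Fin N),
      N + M + 1 ≤ 5 * ((m + 1) ^ 2 * (k + 1)) ∧ ∀ (K : Type) [Field K], GSol K gate one ↔ G.Colorable k := by
  obtain ⟨gate, one, h⟩ := GSolT_fin (Colour.Vr m k) (Colour.Gt m k) (Colour.gates G k) Colour.vo
  refine ⟨_, _, gate, one, ?_, fun K _ => (h K).trans (Colour.gates_iff G k K)⟩
  simp only [Fintype.card_sum, Fintype.card_prod, Fintype.card_fin, Fintype.card_unit,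
    Fintype.card_bool]
  ring_nf
  nlinarith [Nat.zero_le (m * k), Nat.zero_le (m ^ 2 * k), Nat.zero_le (m ^ 2), Nat.zero_le m,
    Nat.zero_le k]

end Pool.Agent.SprJ
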