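import Pool.Agent.SprJ.Base

/-!
# Orthogonality systems, labels, levels and layouts
(MP_3a0658_ag, universality for `X` in Jordan form)   (helper8)
-/

set_option autoImplicit false

open Matrix

namespace Pool.Agent.SprJ


/-! ## Orthogonality systems -/

/-- vectors `Y_i, Z_i` (`i ∈ I`) in `K^C` with supports in `sY i`, `sZ i`, with `Y_i · Z_j = 0` for
`(i, j) ∈ Σ`, `i ≠ j`, and `Y_i · Z_i ≠ 0` for all `i` -/
def OSol (K : Type*) [Field K] {I C : Type} [Fintype C] (sY sZ : I → C → Prop)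
    (Sg : I → I → Prop) : Prop :=
  ∃ Y Z : I → C → K, (∀ i x, ¬ sY i x → Y i x = 0) ∧ (∀ i x, ¬ sZ i x → Z i x = 0) ∧
    (∀ i j, i ≠ j → Sg i j → ∑ x, Y i x * Z j x = 0) ∧ ∀ i, ∑ x, Y i x * Z i x ≠ 0

/-! ## Labels and levels -/

/-- the labels: Jordan blocks -/
inductive Lb (I C : Type) : Type
  | a (i : I) : Lb I C
  | c (x : C) : Lb I C
  | c' (i : I) : Lb I C
  | d (i : I) : Lb I C
  deriving DecidableEq

namespace Lb

/-- labels as a sum type -/
def equivSum (I C : Type) : Lb I C ≃ (I ⊕ C) ⊕ (I ⊕ I) where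
  toFun
    | a i => Sum.inl (Sum.inl i)
    | c x => Sum.inl (Sum.inr x)
    | c' i => Sum.inr (Sum.inl i)
    | d i => Sum.inr (Sum.inr i)
  invFun
    | Sum.inl (Sum.inl i) => a i
    | Sum.inl (Sum.inr x) => c x
    | Sum.inr (Sum.inl i) => c' i
    | Sum.inr (Sum.inr i) => d i
  left_inv q := by cases q <;> rfl
  right_inv q := by rcases q with (i | x) | (i | i) <;> rfl

instance (I C : Type) [Fintype I] [Fintype C] : Fintype (Lb I C) :=
  Fintype.ofEquiv _ (equivSum I C).symm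

lemma card (I C : Type) [Fintype I] [Fintype C] :
    Fintype.card (Lb I C) = 3 * Fintype.card I + Fintype.card C := by
  rw [Fintype.card_congr (equivSum I C)]
  simp only [Fintype.card_sum]
  ring

end Lb

/-- pivot labels of a level of type 2 (`true`) or type 1 (`false`) -/
def piv {I C : Type} : Bool → Lb I C → Prop
  | true, .d _ => False
  | true, _ => True
  | false, .a _ => True
  | false, _ => False

/-- the involution of the labels: `c' i ↔ d i` for type 2, `a i ↔ d i` for type 1 -/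
def sg {I C : Type} : Bool → Lb I C → Lb I C
  | true, .c' i => .d i
  | true, .d i => .c' i
  | false, .a i => .d i
  | false, .d i => .a i
  | _, q => q

lemma sg_sg {I C : Type} (b : Bool) (q : Lb I C) : sg b (sg b q) = q := by
  cases b <;> cases q <;> rfl

/-- zeros imposed on levels of type 2 -/
def cond2 {I C : Type} (sZ : I → C → Prop) (Sg : I → I → Prop) : Lb I C → Lb I C → Prop
  | .c x, .d j => ¬ sZ j x
  | .a i, .d j => i = j ∨ Sg i j
  | _, _ => False

/-- zeros imposed on levels of type 1 -/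
def cond1 {I C : Type} (sY : I → C → Prop) : Lb I C → Lb I C → Prop
  | .a i, .c x => ¬ sY i x
  | .a _, .c' _ => True
  | .a i, .d j => i ≠ j
  | _, _ => False

/-- the levels: `m₂` levels of type 2, then `m₁` levels of type 1; level `t` imposes the zero
`(al t, be t)` -/
structure Lev {I C : Type} (sY sZ : I → C → Prop) (Sg : I → I → Prop) (m₂ m₁ : ℕ) where
  al : Fin (m₂ + m₁) → Lb I C
  be : Fin (m₂ + m₁) → Lb I C
  h2 : ∀ t : Fin (m₂ + m₁), (t : ℕ) < m₂ → cond2 sZ Sg (al t) (be t)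
  h1 : ∀ t : Fin (m₂ + m₁), ¬ ((t : ℕ) < m₂) → cond1 sY (al t) (be t)
  f2 : ∀ p q, cond2 sZ Sg p q → ∃ t : Fin (m₂ + m₁), (t : ℕ) < m₂ ∧ al t = p ∧ be t = q
  f1 : ∀ p q, cond1 sY p q → ∃ t : Fin (m₂ + m₁), ¬ ((t : ℕ) < m₂) ∧ al t = p ∧ be t = q

/-- labels of the basis vectors -/
abbrev Lab (m : ℕ) (I C : Type) : Type := Fin m × Lb I C

/-- type of a level: `true` is type 2 -/
def ty (m₂ : ℕ) {m : ℕ} (t : Fin m) : Bool := decide ((t : ℕ) < m₂)

/-- early labels -/
def early (m₂ : ℕ) {m : ℕ} {I C : Type} (l : Lab m I C) : Prop := piv (ty m₂ l.1) l.2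

/-- the level preserving involution -/
def sig (m₂ : ℕ) {m : ℕ} {I C : Type} (l : Lab m I C) : Lab m I C := (l.1, sg (ty m₂ l.1) l.2)

lemma sig_sig (m₂ : ℕ) {m : ℕ} {I C : Type} (l : Lab m I C) : sig m₂ (sig m₂ l) = l := by
  simp [sig, sg_sg]

/-- the two orders on the labels: `idx` (the reference flag) and `pos` (the permutation `w`) -/
structure Lay {I C : Type} {sY sZ : I → C → Prop} {Sg : I → I → Prop} {m₂ m₁ : ℕ}
    (V : Lev sY sZ Sg m₂ m₁) (n : ℕ) where
  idx : Lab (m₂ + m₁) I C ≃ Fin n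
  pos : Lab (m₂ + m₁) I C ≃ Fin n
  i1 : ∀ t t' q q', t < t' → idx (t, q) < idx (t', q')
  i2 : ∀ t q q', ¬ piv (ty m₂ t) q → piv (ty m₂ t) q' → ¬ (q' = V.al t ∧ q = V.be t) →
    idx (t, q) < idx (t, q')
  i3 : ∀ t, idx (t, V.al t) < idx (t, V.be t)
  p1 : ∀ l l', early m₂ l → ¬ early m₂ l' → pos l < pos l'
  p2 : ∀ l l', (early m₂ l ↔ early m₂ l') → l.1 < l'.1 → pos l < pos l'
  p3 : ∀ t i q, ty m₂ t = true → (∀ j, q ≠ .c' j) → pos (t, .c' i) < pos (t, q)
  p4 : ∀ t i q, ty m₂ t = false → (∀ j, q ≠ .d j) → pos (t, q) < pos (t, .d i)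

/-- the nilpotent matrix in label form -/
def XL (K : Type*) [Field K] (m : ℕ) (I C : Type) [DecidableEq I] [DecidableEq C] :
    Matrix (Lab m I C) (Lab m I C) K :=
  fun l k => if (l.1 : ℕ) + 1 = (k.1 : ℕ) ∧ l.2 = k.2 then 1 else 0

namespace Lay

variable {I C : Type} {sY sZ : I → C → Prop} {Sg : I → I → Prop} {m₂ m₁ : ℕ}
  {V : Lev sY sZ Sg m₂ m₁} {n : ℕ}

/-- the permutation `w` -/
def w (L : Lay V n) : Equiv.Perm (Fin n) := L.pos.symm.trans L.idx

/-- `sig` as an equivalence -/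
def sigE (m₂ m : ℕ) (I C : Type) : Lab m I C ≃ Lab m I C where
  toFun := sig m₂
  invFun := sig m₂
  left_inv := sig_sig m₂
  right_inv := sig_sig m₂

/-- the permutation `v` -/
def v (L : Lay V n) : Equiv.Perm (Fin n) := (L.pos.symm.trans (sigE m₂ (m₂ + m₁) I C)).trans L.idx

/-- the Jordan basis -/
def eps (L : Lay V n) {r : ℕ} (tb : Lb I C ≃ Fin r) : Fin (m₂ + m₁) × Fin r ≃ Fin n :=
  (Equiv.prodCongr (Equiv.refl _) tb.symm).trans L.idx

end Lay

end Pool.Agent.SprJ
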