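import Pool.Agent.SprJ.Asm
import Pool.Agent.SprJ.GateQ

/-!
# Universality of Springer Schubert cells for `X` in Jordan form (MP_3a0658_ag)   (helper8)
-/

set_option autoImplicit false

namespace Pool.Agent.SprJ

theorem universality (hCur : S_Cur) (a b : ℕ) (f : Fin b → MvPolynomial (Fin a) ℤ) :
    ∃ (n m r : ℕ) (ε : Fin m × Fin r ≃ Fin n) (v w : Equiv.Perm (Fin n)),
      n ≤ 300000000 * (1 + ∑ l, (1 + len (f l))) ^ 3 ∧ (w⁻¹ * v) ^ 2 = 1 ∧
      ∀ (K : Type) [Field K] [Infinite K],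
        (∀ i j, j ≤ i → jordan K ε i j = 0) ∧
        InSpringer (jordan K ε) (perm K v) ∧ InSpringer (jordan K ε) (perm K w) ∧
        (InClosure (jordan K ε) v w ↔ ∃ x : Fin a → K, ∀ l, MvPolynomial.aeval x (f l) = 0) := by
  obtain ⟨N, M, gate, one, hs, hg⟩ := GateQ a b f
  obtain ⟨n, m, r, ε, v, w, hn, hvw, h⟩ := gateMain hCur N M gate one
  refine ⟨n, m, r, ε, v, w, ?_, hvw, fun K _ _ => ?_⟩
  · generalize 1 + ∑ l, (1 + len (f l)) = s at hs ⊢
    calc n ≤ 160000 * (N + M + 1) ^ 3 := hn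
      _ ≤ 160000 * (12 * s) ^ 3 := Nat.mul_le_mul_left _ (Nat.pow_le_pow_left hs 3)
      _ = 276480000 * s ^ 3 := by ring
      _ ≤ 300000000 * s ^ 3 := Nat.mul_le_mul_right _ (by norm_num)
  · obtain ⟨h1, h2, h3, h4⟩ := h K
    exact ⟨h1, h2, h3, h4.trans (hg K)⟩

end Pool.Agent.SprJ
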