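import Pool.Agent.SprJ.Stmts
import Pool.Agent.Lib_helper58.Spr.Layout

/-!
# Module SPR_Lay (MP_3a0658_ag): layouts exist
-/

set_option autoImplicit false

namespace Pool.Agent.SprJ

open Pool.Agent.Lib_helper58.Spr (exists_equiv_of_rank)

lemma cond2_al {I C : Type} {sZ : I → C → Prop} {Sg : I → I → Prop} {p q : Lb I C}
    (h : cond2 sZ Sg p q) : piv true p ∧ ¬ piv true q := by
  cases p <;> cases q <;> simp_all [cond2, piv]

lemma cond1_al {I C : Type} {sY : I → C → Prop} {p q : Lb I C}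
    (h : cond1 sY p q) : piv false p ∧ ¬ piv false q := by
  cases p <;> cases q <;> simp_all [cond1, piv]

/-- sub-rank of the positions -/
def subR {I C : Type} : Lb I C → ℕ
  | .c' _ => 0
  | .a _ => 1
  | .c _ => 1
  | .d _ => 2

theorem Lay_ex : S_Lay := by
  classical
  intro I C _ _ _ _ sY sZ Sg m₂ m₁ n V hn
  have hcard : Fintype.card (Lab (m₂ + m₁) I C) = n := by
    rw [hn, Fintype.card_prod, Fintype.card_fin, Lb.card]
  -- al is a pivot and be is not
  have hab : ∀ t, piv (ty m₂ t) (V.al t) ∧ ¬ piv (ty m₂ t) (V.be t) := by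
    intro t
    by_cases ht : (t : ℕ) < m₂
    · have : ty m₂ t = true := by simp [ty, ht]
      rw [this]
      exact cond2_al (V.h2 t ht)
    · have : ty m₂ t = false := by simp [ty, ht]
      rw [this]
      exact cond1_al (V.h1 t ht)
  let tb : Lb I C → ℕ := fun q => (Fintype.equivFin (Lb I C) q : ℕ)
  have htb : Function.Injective tb := fun a b h =>
    (Fintype.equivFin (Lb I C)).injective (Fin.ext h)
  let cl : Fin (m₂ + m₁) → Lb I C → ℕ := fun t q =>
    if q = V.be t then 2 else if q = V.al t then 1 else if piv (ty m₂ t) q then 3 else 0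
  let ri : Lab (m₂ + m₁) I C → ℕ ×ₗ (ℕ ×ₗ ℕ) := fun l =>
    toLex ((l.1 : ℕ), toLex (cl l.1 l.2, tb l.2))
  have hri : Function.Injective ri := by
    rintro ⟨t, q⟩ ⟨t', q'⟩ h
    simp only [ri, EmbeddingLike.apply_eq_iff_eq, Prod.mk.injEq] at h
    obtain ⟨h1, -, h3⟩ := h
    rw [Fin.ext h1, htb h3]
  obtain ⟨ei, hei⟩ := exists_equiv_of_rank ri hri hcard
  let rp : Lab (m₂ + m₁) I C → ℕ ×ₗ (ℕ ×ₗ (ℕ ×ₗ ℕ)) := fun l =>
    toLex ((if early m₂ l then 0 else 1), toLex ((l.1 : ℕ), toLex (subR l.2, tb l.2)))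
  have hrp : Function.Injective rp := by
    rintro ⟨t, q⟩ ⟨t', q'⟩ h
    simp only [rp, EmbeddingLike.apply_eq_iff_eq, Prod.mk.injEq] at h
    obtain ⟨-, h1, -, h3⟩ := h
    rw [Fin.ext h1, htb h3]
  obtain ⟨ep, hep⟩ := exists_equiv_of_rank rp hrp hcard
  refine ⟨{ idx := ei, pos := ep, i1 := ?_, i2 := ?_, i3 := ?_, p1 := ?_, p2 := ?_, p3 := ?_,
            p4 := ?_ }⟩
  · intro t t' q q' h
    rw [hei, Prod.Lex.toLex_lt_toLex]
    left; exact h
  · intro t q q' hq hq' hne
    rw [hei, Prod.Lex.toLex_lt_toLex]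
    right
    refine ⟨rfl, ?_⟩
    rw [Prod.Lex.toLex_lt_toLex]
    left
    have h1 : q ≠ V.al t := fun h => hq (h ▸ (hab t).1)
    have h2 : q' ≠ V.be t := fun h => (hab t).2 (h ▸ hq')
    show cl t q < cl t q'
    simp only [cl]
    by_cases hb : q = V.be t
    · have h3 : q' ≠ V.al t := fun h => hne ⟨h, hb⟩
      rw [if_pos hb, if_neg h2, if_neg h3, if_pos hq']
      norm_num
    · rw [if_neg hb, if_neg h1, if_neg hq, if_neg h2]
      split_ifs <;> norm_num
  · intro t
    rw [hei, Prod.Lex.toLex_lt_toLex]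
    right
    refine ⟨rfl, ?_⟩
    rw [Prod.Lex.toLex_lt_toLex]
    left
    have h1 : V.al t ≠ V.be t := fun h => (hab t).2 (h ▸ (hab t).1)
    show cl t (V.al t) < cl t (V.be t)
    simp only [cl]
    rw [if_neg h1]
    simp
  · intro l l' h h'
    rw [hep, Prod.Lex.toLex_lt_toLex]
    left; simp [h, h']
  · intro l l' h h'
    rw [hep, Prod.Lex.toLex_lt_toLex]
    right
    refine ⟨by simp [h], ?_⟩
    rw [Prod.Lex.toLex_lt_toLex]
    left; exact h'
  · intro t i q ht hq
    rw [hep, Prod.Lex.toLex_lt_toLex]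
    have he : early m₂ (t, (Lb.c' i : Lb I C)) := by simp [early, ht, piv]
    by_cases hq' : early m₂ (t, q)
    · right
      refine ⟨by simp [he, hq'], ?_⟩
      rw [Prod.Lex.toLex_lt_toLex]
      right
      refine ⟨rfl, ?_⟩
      rw [Prod.Lex.toLex_lt_toLex]
      left
      cases q with
      | c' j => exact absurd rfl (hq j)
      | a j => simp [subR]
      | c j => simp [subR]
      | d j => simp [subR]
    · left; simp [he, hq']
  · intro t i q ht hq
    rw [hep, Prod.Lex.toLex_lt_toLex]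
    have he : ¬ early m₂ (t, (Lb.d i : Lb I C)) := by simp [early, ht, piv]
    by_cases hq' : early m₂ (t, q)
    · left; simp [he, hq']
    · right
      refine ⟨by simp [he, hq'], ?_⟩
      rw [Prod.Lex.toLex_lt_toLex]
      right
      refine ⟨rfl, ?_⟩
      rw [Prod.Lex.toLex_lt_toLex]
      left
      cases q with
      | d j => exact absurd rfl (hq j)
      | a j => simp [subR]
      | c j => simp [subR]
      | c' j => simp [subR]

end Pool.Agent.SprJ
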