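import Pool.Agent.SprJ.Final
import Pool.Agent.SprJ.Cur

/-!
# Universality of Springer Schubert cells for `X` in Jordan form, unconditional (MP_3a0658_ag)
-/

set_option autoImplicit false

namespace Pool.Agent.SprJ

theorem main (a b : ℕ) (f : Fin b → MvPolynomial (Fin a) ℤ) :
    ∃ (n m r : ℕ) (ε : Fin m × Fin r ≃ Fin n) (v w : Equiv.Perm (Fin n)),
      n ≤ 300000000 * (1 + ∑ l, (1 + len (f l))) ^ 3 ∧ (w⁻¹ * v) ^ 2 = 1 ∧
      ∀ (K : Type) [Field K] [Infinite K],
        (∀ i j, j ≤ i → jordan K ε i j = 0) ∧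
        InSpringer (jordan K ε) (perm K v) ∧ InSpringer (jordan K ε) (perm K w) ∧
        (InClosure (jordan K ε) v w ↔ ∃ x : Fin a → K, ∀ l, MvPolynomial.aeval x (f l) = 0) :=
  universality Cur a b f

end Pool.Agent.SprJ
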