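import Pool.Agent.SprJ.Defs

/-!
# Module statements (MP_3a0658_ag, universality for `X` in Jordan form)   (helper8)

* `S_Lay`  : layouts exist
* `S_Tr`   : from the closure on `Fin n` to matrices on labels
* `S_An`   : analysis of the cell: orthogonality system
* `S_Cur`  : from a solution of the orthogonality system to the closure
* `S_Pts`  : `X` upper triangular, `vB, wB ∈ S_X`
* `S_OS`   : gate systems are orthogonality systems
* `S_Gate` : integer polynomial systems are gate systems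
-/

set_option autoImplicit false

open Matrix

namespace Pool.Agent.SprJ

/-- layouts exist -/
def S_Lay : Prop := ∀ (I C : Type) [Fintype I] [Fintype C] [DecidableEq I] [DecidableEq C]
  (sY sZ : I → C → Prop) (Sg : I → I → Prop) (m₂ m₁ n : ℕ) (V : Lev sY sZ Sg m₂ m₁),
  n = (m₂ + m₁) * (3 * Fintype.card I + Fintype.card C) → Nonempty (Lay V n)

/-- from the closure to label matrices: `U` is the matrix of a Borel element (upper triangular for
`idx`), `X U = U Z` with `Z` upper triangular for `pos`, and all minors of `U` with columns an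
initial segment for `pos` and rows its image under the involution are nonzero -/
def S_Tr : Prop := ∀ (I C : Type) [Fintype I] [Fintype C] [DecidableEq I] [DecidableEq C]
  (sY sZ : I → C → Prop) (Sg : I → I → Prop) (m₂ m₁ n r : ℕ) (V : Lev sY sZ Sg m₂ m₁)
  (L : Lay V n) (tb : Lb I C ≃ Fin r) (K : Type) [Field K],
  InClosure (jordan K (L.eps tb)) L.v L.w →
  ∃ U Z : Matrix (Lab (m₂ + m₁) I C) (Lab (m₂ + m₁) I C) K,
    (∀ a k, L.idx k < L.idx a → U a k = 0) ∧ (∀ k, U k k ≠ 0) ∧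
    (∀ l k, L.pos k < L.pos l → Z l k = 0) ∧ XL K (m₂ + m₁) I C * U = U * Z ∧
    ∀ p : ℕ, ((Matrix.of fun a b : {k : Lab (m₂ + m₁) I C // ((L.pos k : Fin n) : ℕ) < p} =>
      U (sig m₂ a.1) b.1).det ≠ 0)

/-- analysis of the cell -/
def S_An : Prop := ∀ (I C : Type) [Fintype I] [Fintype C] [DecidableEq I] [DecidableEq C]
  (sY sZ : I → C → Prop) (Sg : I → I → Prop) (m₂ m₁ n : ℕ) (V : Lev sY sZ Sg m₂ m₁)
  (L : Lay V n) (K : Type) [Field K], 0 < m₂ → 0 < m₁ →
  ∀ U Z : Matrix (Lab (m₂ + m₁) I C) (Lab (m₂ + m₁) I C) K,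
    (∀ a k, L.idx k < L.idx a → U a k = 0) → (∀ k, U k k ≠ 0) →
    (∀ l k, L.pos k < L.pos l → Z l k = 0) → XL K (m₂ + m₁) I C * U = U * Z →
    (∀ p : ℕ, ((Matrix.of fun a b : {k : Lab (m₂ + m₁) I C // ((L.pos k : Fin n) : ℕ) < p} =>
      U (sig m₂ a.1) b.1).det ≠ 0)) →
    OSol K sY sZ Sg

/-- curves -/
def S_Cur : Prop := ∀ (I C : Type) [Fintype I] [Fintype C] [DecidableEq I] [DecidableEq C]
  (sY sZ : I → C → Prop) (Sg : I → I → Prop) (m₂ m₁ n r : ℕ) (V : Lev sY sZ Sg m₂ m₁)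
  (L : Lay V n) (tb : Lb I C ≃ Fin r) (K : Type) [Field K] [Infinite K],
  OSol K sY sZ Sg → InClosure (jordan K (L.eps tb)) L.v L.w

/-- `X` is strictly upper triangular, `vB, wB ∈ S_X` -/
def S_Pts : Prop := ∀ (I C : Type) [Fintype I] [Fintype C] [DecidableEq I] [DecidableEq C]
  (sY sZ : I → C → Prop) (Sg : I → I → Prop) (m₂ m₁ n r : ℕ) (V : Lev sY sZ Sg m₂ m₁)
  (L : Lay V n) (tb : Lb I C ≃ Fin r) (K : Type) [Field K],
  (L.w⁻¹ * L.v) ^ 2 = 1 ∧ (∀ i j, j ≤ i → jordan K (L.eps tb) i j = 0) ∧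
    InSpringer (jordan K (L.eps tb)) (perm K L.v) ∧ InSpringer (jordan K (L.eps tb)) (perm K L.w)

/-! ## Gate systems -/

/-- a gate system on the variables `Fin N`, `gate g = (b, i, j, k)`: the equation
`x_i x_j = x_k` (`b = true`) or `x_i + x_j = x_k` (`b = false`); variable `one` is `1` -/
def GSol (K : Type*) [Field K] {N M : ℕ} (gate : Fin M → Bool × Fin N × Fin N × Fin N)
    (one : Fin N) : Prop :=
  ∃ x : Fin N → K, x one = 1 ∧ ∀ g : Fin M,
    if (gate g).1 then x (gate g).2.1 * x (gate g).2.2.1 = x (gate g).2.2.2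
    else x (gate g).2.1 + x (gate g).2.2.1 = x (gate g).2.2.2

/-- gate systems are orthogonality systems; the number of vectors and the dimension are linear in
the size -/
def S_OS : Prop := ∀ (N M : ℕ) (gate : Fin M → Bool × Fin N × Fin N × Fin N) (one : Fin N),
  ∃ (p q : ℕ) (sY sZ : Fin p → Fin q → Prop) (Sg : Fin p → Fin p → Prop),
    0 < p ∧ p ≤ 25 * (N + M + 1) ∧ q ≤ 3 * (N + M + 1) ∧
    ∀ (K : Type) [Field K], OSol K sY sZ Sg ↔ GSol K gate one

/-- integer polynomial systems are gate systems -/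
def S_Gate : Prop := ∀ (a b : ℕ) (f : Fin b → MvPolynomial (Fin a) ℤ),
  ∃ (N M : ℕ) (gate : Fin M → Bool × Fin N × Fin N × Fin N) (one : Fin N),
    ∀ (K : Type) [Field K], GSol K gate one ↔ ∃ x : Fin a → K, ∀ l, MvPolynomial.aeval x (f l) = 0

/-! ## The theorem -/

/-- gate version, with a bound -/
def S_GateMain : Prop := ∀ (N M : ℕ) (gate : Fin M → Bool × Fin N × Fin N × Fin N) (one : Fin N),
  ∃ (n m r : ℕ) (ε : Fin m × Fin r ≃ Fin n) (v w : Equiv.Perm (Fin n)),
    n ≤ 160000 * (N + M + 1) ^ 3 ∧ (w⁻¹ * v) ^ 2 = 1 ∧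
    ∀ (K : Type) [Field K] [Infinite K],
      (∀ i j, j ≤ i → jordan K ε i j = 0) ∧
      InSpringer (jordan K ε) (perm K v) ∧ InSpringer (jordan K ε) (perm K w) ∧
      (InClosure (jordan K ε) v w ↔ GSol K gate one)

end Pool.Agent.SprJ
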